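import Pool.Agent.T6.H63.SA.GCK
import Pool.Agent.TH522.UG.Ach

/-!
Conditioning inside a soft part, for a hierarchy of functionals whose kernels are positive
semidefinite on small tuples of vertices.
-/

namespace Pool.Agent.T6.H63.SA

open Finset Pool.Agent.H647R3.UG Pool.Agent.H573R3.SL

/-- the facts on a functional which the rounding uses -/
structure Fct {V A : Type} [Fintype V] [DecidableEq V] [Fintype A] [DecidableEq A] (r : ℕ)
    (L : ((V → A) → ℝ) →ₗ[ℝ] ℝ) : Prop where
  law : ∀ u v, IsLaw (pr2 L u v) (pr L u) (pr L v)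
  nn : ∀ u a, 0 ≤ pr L u a
  symm : ∀ u v a b, pr2 L u v a b = pr2 L v u b a
  diag : ∀ u, pr2 L u u = dg (pr L u)
  sat : ∀ u v (π : Equiv.Perm A), L (sat u v π) = ∑ a, pr2 L u v a (π a)
  sat1 : ∀ u v (π : Equiv.Perm A), L (Pool.Agent.H647R3.UG.sat u v π) ≤ 1
  psd : PSDt (kr L) (r + 1)
  fd : ∀ u v, dec L u v = vr L v - ∑ a, pr L u a * vr (cnd L u a) v

/-- a hierarchy of functionals closed under conditioning -/
structure Hier {V A : Type} [Fintype V] [DecidableEq V] [Fintype A] [DecidableEq A] (r : ℕ)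
    (Q : ℕ → (((V → A) → ℝ) →ₗ[ℝ] ℝ) → Prop) : Prop where
  fct : ∀ k L, Q k L → Fct r L
  step : ∀ k L, Q (k + 1) L → ∀ u a, 0 < pr L u a → Q k (cnd L u a)
  mono : ∀ k L, Q (k + 1) L → Q k L
  avg : ∀ k L, Q (k + 1) L → ∀ u v w (π : Equiv.Perm A),
    ∑ a, pr L u a * cnd L u a (sat v w π) = L (sat v w π)

theorem Hier.mono' {V A : Type} [Fintype V] [DecidableEq V] [Fintype A] [DecidableEq A] {r : ℕ}
    {Q : ℕ → (((V → A) → ℝ) →ₗ[ℝ] ℝ) → Prop} (h : Hier r Q) (L : ((V → A) → ℝ) →ₗ[ℝ] ℝ)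
    (k j : ℕ) (hL : Q (k + j) L) : Q k L := by
  induction j with
  | zero => exact hL
  | succ j ih => exact ih (h.mono _ _ hL)

/-- size of one conditioning step -/
noncomputable def stq (l c0 τ q : ℝ) (n : ℕ) : ℝ :=
  c0 ^ 2 / 256 * (rho l τ q ^ 2 * (n : ℝ) ^ (-q))

theorem s1 {V A E : Type} [Fintype V] [DecidableEq V] [Fintype A] [DecidableEq A] [Fintype E]
    (s t : E → V) (π : E → Equiv.Perm A) (f : V → ℝ) (L : ((V → A) → ℝ) →ₗ[ℝ] ℝ) (r : ℕ)
    (hr : 1 ≤ r)
    (l c0 ε' q : ℝ) (hL : Fct r L) (hf : ∀ v, 0 ≤ f v) (hvol : 0 < volL s t f)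
    (hl : 0 < l) (hLS : LSob (cf (wt s t) f) (fun v => dgr s t v * f v ^ 2) l) (hc0 : 0 < c0)
    (hε : 0 < ε') (hτ : 192 * ε' / c0 ≤ 1) (hq : 0 < q) (hq1 : q ≤ 1)
    (hrt : 16 ≤ r * c0 * rho l (192 * ε' / c0) q ^ 2 * (192 * ε' / c0))
    (hPhi : c0 * volL s t f ≤ PhiL s t f L) (hErr : ErrL s t π f L ≤ ε' * volL s t f) :
    ∃ u, stq l c0 (192 * ε' / c0) q (Fintype.card V) * volL s t f
      ≤ PhiL s t f L - ∑ a, pr L u a * PhiL s t f (cnd L u a) := by
  obtain ⟨hlaw, hpr0, hsymm, hdiag, hsat, hsat1, hpsd, hFD'⟩ := hL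
  obtain ⟨hw0, hws, hwd, hwC, hwsum, hwend, hwF, hwh, hwins⟩ := T_WT V E s t
  set m : V → ℝ := fun v => dgr s t v * f v ^ 2 with hm
  have hdg0 : ∀ v, 0 ≤ dgr s t v := fun v => by unfold dgr; positivity
  have hm0 : ∀ v, 0 ≤ m v := fun v => mul_nonneg (hdg0 v) (sq_nonneg _)
  have hvolm : volL s t f = ∑ v, m v := rfl
  -- the diagonal of the kernel
  have hkk : ∀ u, kr L u u = ker (dg (pr L u)) (pr L u) (pr L u) := fun u => by
    unfold kr; rw [hdiag]
  have hvr : ∀ u, vr L u / 8 ≤ kr L u u := fun u => by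
    rw [hkk]; exact T_RB A (pr L u) (hpr0 u) (hlaw u u).one
  have hT2 : c0 * volL s t f / 8 ≤ ∑ u, m u * kr L u u := by
    have hT1 : PhiL s t f L / 8 ≤ ∑ u, m u * kr L u u := by
      unfold PhiL
      rw [sum_div]
      refine sum_le_sum fun u hu => ?_
      rw [mul_div_assoc]
      exact mul_le_mul_of_nonneg_left (hvr u) (hm0 u)
    exact le_trans (by linarith) hT1
  have hT0 : 0 < ∑ u, m u * kr L u u :=
    lt_of_lt_of_le (by positivity) hT2
  -- bounds of the kernel
  have hks : ∀ u v, kr L u v = kr L v u := by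
    intro u v
    unfold kr ker
    rw [sum_comm]
    refine sum_congr rfl fun b _ => sum_congr rfl fun a _ => ?_
    rw [hsymm u v a b, mul_comm (pr L u a)]
  have hdec0 : ∀ u v, 0 ≤ kr L u v ∧ kr L u v ≤ (dec L u v + dec L v u) / 2 ∧
      kr L u v ≤ 1 := by
    intro u v
    obtain ⟨h1, h2, h3, h4⟩ := T_RD A (pr2 L u v) (pr L u) (pr L v) (hlaw u v)
    have e1 : (∑ a, ∑ b, (pr2 L u v a b - pr L u a * pr L v b) ^ 2 / pr L u a) = dec L u v := rfl
    have e2 : (∑ a, ∑ b, (pr2 L u v a b - pr L u a * pr L v b) ^ 2 / pr L v b) = dec L v u := by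
      unfold dec
      rw [sum_comm]
      refine sum_congr rfl fun b _ => sum_congr rfl fun a _ => ?_
      rw [hsymm u v a b, mul_comm (pr L u a)]
    rw [e1] at h2 h3
    rw [e2] at h2 h4
    have h5 : kr L u v = ker (pr2 L u v) (pr L u) (pr L v) := rfl
    rw [← h5] at h1 h2
    exact ⟨h1, h2, by linarith⟩
  -- the energy
  have hins : ins s t (univ : Finset V) = univ := by
    ext e; simp [ins]
  have hen : 1 / 2 * ∑ u, ∑ v, cf (wt s t) f u v * (kr L u u + kr L v v - 2 * kr L u v)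
      = ∑ e, f (s e) * f (t e) * (kr L (s e) (s e) + kr L (t e) (t e) - 2 * kr L (s e) (t e)) := by
    unfold cf
    have h1 : ∀ u v, wt s t u v * (f u * f v) * (kr L u u + kr L v v - 2 * kr L u v)
        = wt s t u v * (f u * f v * (kr L u u + kr L v v - 2 * kr L u v)) := fun u v => by ring
    simp only [h1]
    have h2 := hwF univ (fun u v => f u * f v * (kr L u u + kr L v v - 2 * kr L u v)) (by
      intro u v
      rw [hks u v]; ring)
    rw [h2, hins]
    ring
  have hen2 : 1 / 2 * ∑ u, ∑ v, cf (wt s t) f u v * (kr L u u + kr L v v - 2 * kr L u v)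
      ≤ 24 * (ε' * volL s t f) := by
    rw [hen]
    refine le_trans ?_ (mul_le_mul_of_nonneg_left hErr (by norm_num))
    unfold ErrL
    rw [mul_sum]
    refine sum_le_sum fun e _ => ?_
    have h1 : kr L (s e) (s e) + kr L (t e) (t e) - 2 * kr L (s e) (t e)
        ≤ 24 * (1 - L (sat (s e) (t e) (π e))) := by
      rw [hkk, hkk, hsat]
      exact T_RA A _ _ _ (π e) (hlaw (s e) (t e))
    have h2 := mul_le_mul_of_nonneg_left h1 (mul_nonneg (hf (s e)) (hf (t e)))
    linarith
  have hτ0 : 0 < 192 * ε' / c0 := by positivity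
  have hρ0 : 0 < rho l (192 * ε' / c0) q := Real.exp_pos _
  have hgc := gcflK V (cf (wt s t) f) m (kr L) r hr hpsd hks (fun u v => (hdec0 u v).2.2)
    (fun u v => (hdec0 u v).1) l (192 * ε' / c0) q (volL s t f)
    (fun u v => mul_nonneg (hw0 u v) (mul_nonneg (hf u) (hf v)))
    (fun u v => by unfold cf; rw [hws u v, mul_comm (f u)])
    hm0
    (by
      intro u hu v
      unfold cf
      rcases mul_eq_zero.1 hu with h1 | h1
      · have h2 : ∑ v, wt s t u v = 0 := by rw [hwd, h1]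
        have h3 := (sum_eq_zero_iff_of_nonneg (fun v _ => hw0 u v)).1 h2 v (mem_univ v)
        rw [h3, zero_mul]
      · have h2 : f u = 0 := pow_eq_zero_iff (two_ne_zero) |>.1 h1
        rw [h2, zero_mul, mul_zero])
    hl hLS hτ0 hτ hq hq1 (le_of_eq hvolm.symm)
    (by
      -- total conductance
      have h1 : ∑ u, ∑ v, cf (wt s t) f u v ≤
          ∑ u, ∑ v, (wt s t u v * f u ^ 2 / 2 + wt s t u v * f v ^ 2 / 2) := by
        refine sum_le_sum fun u _ => sum_le_sum fun v _ => ?_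
        unfold cf
        have h2 := mul_nonneg (hw0 u v) (sq_nonneg (f u - f v))
        nlinarith
      refine h1.trans (le_of_eq ?_)
      have h3 : ∑ u, ∑ v, wt s t u v * f u ^ 2 / 2 = volL s t f / 2 := by
        rw [hvolm, sum_div]
        refine sum_congr rfl fun u _ => ?_
        rw [← sum_div, ← sum_mul, hwd]
      have h4 : ∑ u, ∑ v, wt s t u v * f v ^ 2 / 2 = ∑ u, ∑ v, wt s t u v * f u ^ 2 / 2 := by
        rw [sum_comm]
        refine sum_congr rfl fun u _ => sum_congr rfl fun v _ => ?_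
        rw [hws v u]
      simp only [sum_add_distrib]
      rw [h4, h3]
      ring)
    hT0 (by
      refine hen2.trans ?_
      refine le_trans ?_ (mul_le_mul_of_nonneg_left hT2 hτ0.le)
      have : 192 * ε' / c0 * (c0 * volL s t f / 8) = 24 * (ε' * volL s t f) := by
        field_simp
        ring
      rw [this])
    (by
      have h1 : 0 ≤ (r : ℝ) * rho l (192 * ε' / c0) q ^ 2 * (192 * ε' / c0) := by positivity
      have h2 := mul_le_mul_of_nonneg_left hT2 h1
      have h3 := mul_le_mul_of_nonneg_right hrt hvol.le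
      calc 2 * volL s t f = 16 * volL s t f / 8 := by ring
        _ ≤ (r * c0 * rho l (192 * ε' / c0) q ^ 2 * (192 * ε' / c0)) * volL s t f / 8 := by
            linarith
        _ = r * rho l (192 * ε' / c0) q ^ 2 * (192 * ε' / c0) * (c0 * volL s t f / 8) := by ring
        _ ≤ _ := h2
        _ = _ := by ring)
  -- Delta
  have hlow : stq l c0 (192 * ε' / c0) q (Fintype.card V) * volL s t f ^ 2
      ≤ ∑ u, ∑ v, m u * m v * (kr L u v) ^ 2 := by
    refine le_trans ?_ hgc
    have h1 : (c0 * volL s t f / 8) ^ 2 ≤ (∑ u, m u * kr L u u) ^ 2 :=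
      pow_le_pow_left₀ (by positivity) hT2 2
    have h2 : stq l c0 (192 * ε' / c0) q (Fintype.card V) * volL s t f ^ 2 =
        (c0 * volL s t f / 8) ^ 2 / 4 * (rho l (192 * ε' / c0) q ^ 2 *
          (Fintype.card V : ℝ) ^ (-q)) := by unfold stq; ring
    rw [h2]
    exact mul_le_mul_of_nonneg_right (by linarith)
      (mul_nonneg (sq_nonneg _) (Real.rpow_nonneg (Nat.cast_nonneg _) _))
  -- the kernel and dec
  have hdec : ∀ u v, (kr L u v) ^ 2 ≤ (dec L u v + dec L v u) / 2 := by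
    intro u v
    obtain ⟨h1, h2, h3⟩ := hdec0 u v
    nlinarith
  have hup : ∑ u, ∑ v, m u * m v * (kr L u v) ^ 2
      ≤ ∑ u, m u * ∑ v, m v * dec L u v := by
    have h1 : ∑ u, ∑ v, m u * m v * (kr L u v) ^ 2
        ≤ ∑ u, ∑ v, m u * m v * ((dec L u v + dec L v u) / 2) :=
      sum_le_sum fun u hu => sum_le_sum fun v hv =>
        mul_le_mul_of_nonneg_left (hdec u v) (mul_nonneg (hm0 u) (hm0 v))
    refine h1.trans (le_of_eq ?_)
    have h2 : ∑ u, ∑ v, m u * m v * ((dec L u v + dec L v u) / 2)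
        = (∑ u, ∑ v, m u * m v * dec L u v
          + ∑ u, ∑ v, m u * m v * dec L v u) / 2 := by
      rw [← sum_add_distrib, sum_div]
      refine sum_congr rfl fun u _ => ?_
      rw [← sum_add_distrib, sum_div]
      refine sum_congr rfl fun v _ => ?_
      ring
    have h3 : ∑ u, ∑ v, m u * m v * dec L v u
        = ∑ u, ∑ v, m u * m v * dec L u v := by
      rw [sum_comm]
      refine sum_congr rfl fun u _ => sum_congr rfl fun v _ => ?_
      ring
    rw [h2, h3]
    have h4 : ∑ u, ∑ v, m u * m v * dec L u v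
        = ∑ u, m u * ∑ v, m v * dec L u v := by
      refine sum_congr rfl fun u _ => ?_
      rw [mul_sum]
      exact sum_congr rfl fun v _ => by ring
    rw [h4]
    ring
  have hex : ∃ u, stq l c0 (192 * ε' / c0) q (Fintype.card V) * volL s t f
      ≤ ∑ v, m v * dec L u v := by
    by_contra hcon
    push Not at hcon
    obtain ⟨u0, -, hu0⟩ : ∃ u ∈ (univ : Finset V), 0 < m u := by
      apply exists_lt_of_sum_lt (f := fun _ => (0 : ℝ))
      rw [sum_const_zero, ← hvolm]
      exact hvol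
    have h1 : ∑ u, m u * ∑ v, m v * dec L u v
        < ∑ u, m u * (stq l c0 (192 * ε' / c0) q (Fintype.card V) * volL s t f) :=
      sum_lt_sum (fun u _ => mul_le_mul_of_nonneg_left (hcon u).le (hm0 u))
        ⟨u0, mem_univ _, mul_lt_mul_of_pos_left (hcon u0) hu0⟩
    rw [← sum_mul, ← hvolm] at h1
    have h2 := hlow.trans hup
    nlinarith
  obtain ⟨u, hle⟩ := hex
  refine ⟨u, hle.trans (le_of_eq ?_)⟩
  unfold PhiL
  have h2 : ∑ a, pr L u a * ∑ v, dgr s t v * f v ^ 2 * vr (cnd L u a) v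
      = ∑ v, dgr s t v * f v ^ 2 * ∑ a, pr L u a * vr (cnd L u a) v := by
    simp_rw [mul_sum]
    rw [sum_comm]
    refine sum_congr rfl fun v _ => sum_congr rfl fun a _ => ?_
    ring
  rw [h2, ← sum_sub_distrib]
  refine sum_congr rfl fun v _ => ?_
  rw [hFD' u v]
  ring


theorem vr_bounds {V A : Type} [Fintype V] [DecidableEq V] [Fintype A]
    [DecidableEq A] {L : ((V → A) → ℝ) →ₗ[ℝ] ℝ} {r : ℕ} (hL : Fct r L) (v : V) :
    0 ≤ vr L v ∧ vr L v ≤ 1 := by
  have h1 : ∑ a, pr L v a = 1 := (hL.law v v).one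
  have h2 : ∀ a, pr L v a ≤ 1 := fun a => by
    rw [← h1]
    exact single_le_sum (fun a _ => hL.nn v a) (mem_univ a)
  have h3 : ∑ a, pr L v a ^ 2 ≤ 1 := by
    calc ∑ a, pr L v a ^ 2 ≤ ∑ a, pr L v a :=
          sum_le_sum fun a _ => by nlinarith [hL.nn v a, h2 a]
      _ = 1 := h1
  have h4 : 0 ≤ ∑ a, pr L v a ^ 2 := sum_nonneg fun a _ => sq_nonneg _
  unfold vr
  constructor <;> linarith

theorem phi_bounds {V A E : Type} [Fintype V] [DecidableEq V] [Fintype A]
    [DecidableEq A] [Fintype E] (s t : E → V) (f : V → ℝ)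
    {L : ((V → A) → ℝ) →ₗ[ℝ] ℝ} {r : ℕ} (hL : Fct r L) :
    0 ≤ PhiL s t f L ∧ PhiL s t f L ≤ volL s t f := by
  constructor
  · exact sum_nonneg fun v _ => mul_nonneg (mul_nonneg (S2L.dgr_nonneg s t v) (sq_nonneg _))
      (vr_bounds hL v).1
  · refine sum_le_sum fun v _ => ?_
    have h1 : 0 ≤ dgr s t v * f v ^ 2 := mul_nonneg (S2L.dgr_nonneg s t v) (sq_nonneg _)
    have := (vr_bounds hL v).2
    nlinarith

theorem err_nonneg {V A E : Type} [Fintype V] [DecidableEq V] [Fintype A]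
    [DecidableEq A] [Fintype E] (s t : E → V) (π : E → Equiv.Perm A) (f : V → ℝ)
    (hf : ∀ v, 0 ≤ f v)
    {L : ((V → A) → ℝ) →ₗ[ℝ] ℝ} {r : ℕ} (hL : Fct r L) :
    0 ≤ ErrL s t π f L :=
  sum_nonneg fun e _ => mul_nonneg (mul_nonneg (hf _) (hf _))
    (by linarith [hL.sat1 (s e) (t e) (π e)])

theorem err_avg {V A E : Type} [Fintype V]
    [DecidableEq V] [Fintype A] [DecidableEq A] [Fintype E]
    {Q : ℕ → (((V → A) → ℝ) →ₗ[ℝ] ℝ) → Prop} {r : ℕ} (hQ : Hier r Q) (s t : E → V)
    (π : E → Equiv.Perm A) (f : V → ℝ)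
    {L : ((V → A) → ℝ) →ₗ[ℝ] ℝ} {k : ℕ} (hL : Q (k + 1) L) (u : V) :
    ∑ a, pr L u a * ErrL s t π f (cnd L u a) = ErrL s t π f L := by
  have hone : ∑ a, pr L u a = 1 := ((hQ.fct _ _ hL).law u u).one
  unfold ErrL
  simp_rw [mul_sum]
  rw [sum_comm]
  refine sum_congr rfl fun e _ => ?_
  have h5 := hQ.avg k L hL u (s e) (t e) (π e)
  calc ∑ a, pr L u a * (f (s e) * f (t e) * (1 - cnd L u a (sat (s e) (t e) (π e))))
      = f (s e) * f (t e) * (∑ a, pr L u a -
        ∑ a, pr L u a * cnd L u a (sat (s e) (t e) (π e))) := by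
        rw [← sum_sub_distrib, mul_sum]
        refine sum_congr rfl fun a _ => ?_
        ring
    _ = _ := by rw [hone, h5]

theorem s2 {V A E : Type} [Fintype V] [DecidableEq V] [Fintype A] [DecidableEq A] [Fintype E]
    {Q : ℕ → (((V → A) → ℝ) →ₗ[ℝ] ℝ) → Prop} {r : ℕ} (hr : 1 ≤ r) (hQ : Hier r Q)
    (s t : E → V) (π : E → Equiv.Perm A) (f : V → ℝ) (l c0 ε0 q : ℝ) (k : ℕ)
    (hf : ∀ v, 0 ≤ f v) (hM : 0 < volL s t f)
    (hl : 0 < l) (hls : LSob (cf (wt s t) f) (fun v => dgr s t v * f v ^ 2) l)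
    (hc0 : 0 < c0) (hε : 0 < ε0) (hτ : 384 * ε0 / c0 ≤ 1) (hq : 0 < q) (hq1 : q ≤ 1)
    (hrt : 16 ≤ r * c0 * rho l (384 * ε0 / c0) q ^ 2 * (384 * ε0 / c0))
    (hk : 2 ≤ k * stq l c0 (384 * ε0 / c0) q (Fintype.card V))
    (K : ℕ) (L : ((V → A) → ℝ) →ₗ[ℝ] ℝ) (hL : Q (K + k) L)
    (hErr : ErrL s t π f L ≤ ε0 * volL s t f) :
    ∃ L' : ((V → A) → ℝ) →ₗ[ℝ] ℝ, Q K L' ∧ PhiL s t f L' ≤ c0 * volL s t f ∧
      ErrL s t π f L' ≤ 2 * ε0 * volL s t f := by
  set M := volL s t f with hMdef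
  set Δ := stq l c0 (384 * ε0 / c0) q (Fintype.card V) with hΔ
  have hΔ0 : 0 < Δ := by
    by_contra hneg
    push Not at hneg
    have : (k : ℝ) * Δ ≤ 0 := mul_nonpos_of_nonneg_of_nonpos (Nat.cast_nonneg k) hneg
    linarith
  -- the potential
  have key : ∀ k' : ℕ, ∀ (L : ((V → A) → ℝ) →ₗ[ℝ] ℝ), Q (K + k') L →
      PhiL s t f L / M + ErrL s t π f L / (ε0 * M) ≤ 2 →
      PhiL s t f L / M + ErrL s t π f L / (ε0 * M) ≤ k' * Δ →
      ∃ L' : ((V → A) → ℝ) →ₗ[ℝ] ℝ, Q K L' ∧ PhiL s t f L' ≤ c0 * M ∧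
      ErrL s t π f L' ≤ 2 * ε0 * M := by
    intro k'
    induction k' with
    | zero =>
      intro L hL h2 hk'
      have hfc := hQ.fct _ _ hL
      obtain ⟨hp0, hp1⟩ := phi_bounds s t f hfc
      have he0 := err_nonneg s t π f hf hfc
      have h1 : 0 ≤ PhiL s t f L / M := by positivity
      have h3 : 0 ≤ ErrL s t π f L / (ε0 * M) := by positivity
      have h4 : PhiL s t f L / M ≤ 0 := by
        push_cast at hk'; linarith
      have h5 : ErrL s t π f L / (ε0 * M) ≤ 0 := by
        push_cast at hk'; linarith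
      rw [div_le_iff₀ hM] at h4
      rw [div_le_iff₀ (by positivity)] at h5
      refine ⟨L, hL, ?_, ?_⟩
      · have : 0 < c0 * M := by positivity
        linarith
      · have : 0 < 2 * ε0 * M := by positivity
        linarith
    | succ k' ih =>
      intro L hL h2 hk'
      have hfc := hQ.fct _ _ hL
      obtain ⟨hp0, hp1⟩ := phi_bounds s t f hfc
      have he0 := err_nonneg s t π f hf hfc
      have h1 : 0 ≤ PhiL s t f L / M := by positivity
      have h3 : 0 ≤ ErrL s t π f L / (ε0 * M) := by positivity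
      have herr : ErrL s t π f L ≤ 2 * ε0 * M := by
        have h5 : ErrL s t π f L / (ε0 * M) ≤ 2 := by linarith
        rw [div_le_iff₀ (by positivity)] at h5
        linarith
      rcases le_total (PhiL s t f L) (c0 * M) with hc | hc
      · exact ⟨L, hQ.mono' L K (k' + 1) hL, hc, herr⟩
      · have e1 : 192 * (2 * ε0) / c0 = 384 * ε0 / c0 := by ring
        obtain ⟨u, hle⟩ := s1 s t π f L r hr l c0 (2 * ε0) q hfc hf hM hl
          hls hc0 (by positivity) (by rw [e1]; exact hτ) hq hq1 (by rw [e1]; exact hrt) hc herr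
        rw [e1, ← hΔ, ← hMdef] at hle
        have hpr0 := hfc.nn
        have hone : ∑ a, pr L u a = 1 := (hfc.law u u).one
        have havg := err_avg hQ s t π f (k := K + k') hL u
        -- some a
        have hex : ∃ a, 0 < pr L u a ∧
            PhiL s t f (cnd L u a) / M + ErrL s t π f (cnd L u a) / (ε0 * M)
              ≤ PhiL s t f L / M + ErrL s t π f L / (ε0 * M) - Δ := by
          by_contra hne
          push Not at hne
          have hs : ∑ a, pr L u a * (PhiL s t f (cnd L u a) / M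
              + ErrL s t π f (cnd L u a) / (ε0 * M))
              ≤ PhiL s t f L / M + ErrL s t π f L / (ε0 * M) - Δ := by
            have e2 : ∑ a, pr L u a * (PhiL s t f (cnd L u a) / M
              + ErrL s t π f (cnd L u a) / (ε0 * M))
              = (∑ a, pr L u a * PhiL s t f (cnd L u a)) / M + ErrL s t π f L / (ε0 * M) := by
              rw [← havg, sum_div, sum_div, ← sum_add_distrib]
              refine sum_congr rfl fun a _ => ?_
              ring
            rw [e2]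
            have h6 : (∑ a, pr L u a * PhiL s t f (cnd L u a)) / M ≤ PhiL s t f L / M - Δ := by
              rw [div_le_iff₀ hM, sub_mul, div_mul_cancel₀ _ hM.ne']
              linarith
            linarith
          -- there is a with positive probability
          have hpos' : ∃ a, 0 < pr L u a := by
            by_contra hno
            push Not at hno
            have : ∑ a, pr L u a ≤ 0 := sum_nonpos fun a _ => hno a
            linarith
          obtain ⟨a0, ha0⟩ := hpos'
          have hlt : ∑ a, pr L u a * (PhiL s t f L / M + ErrL s t π f L / (ε0 * M) - Δ)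
              < ∑ a, pr L u a * (PhiL s t f (cnd L u a) / M
              + ErrL s t π f (cnd L u a) / (ε0 * M)) := by
            apply sum_lt_sum
            · intro a _
              rcases (hpr0 u a).lt_or_eq with h | h
              · exact mul_le_mul_of_nonneg_left (hne a h).le h.le
              · rw [← h, zero_mul, zero_mul]
            · exact ⟨a0, mem_univ _, mul_lt_mul_of_pos_left (hne a0 ha0) ha0⟩
          rw [← sum_mul, hone, one_mul] at hlt
          linarith
        obtain ⟨a, ha, hle2⟩ := hex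
        have hL' := hQ.step (K + k') L hL u a ha
        refine ih (cnd L u a) hL' ?_ ?_
        · linarith
        · push_cast at hk'
          linarith
  obtain ⟨hp0, hp1⟩ := phi_bounds s t f (hQ.fct _ _ hL)
  have h1 : PhiL s t f L / M ≤ 1 := by rw [div_le_one hM]; exact hp1
  have h2 : ErrL s t π f L / (ε0 * M) ≤ 1 := by rw [div_le_one (by positivity)]; exact hErr
  exact key k L hL (by linarith) (by linarith)

end Pool.Agent.T6.H63.SA
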