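import Pool.Agent.H573R3.SL.All

/-!
Doubling inequality for the correlation of a random walk with a kernel which is positive
semidefinite on all small tuples of vertices.
-/

namespace Pool.Agent.T6.H63.SA

open Finset Pool.Agent.H647R3.UG Pool.Agent.H573R3.SL

/-! ### sums over tuples -/

section
variable {V : Type} [Fintype V]

theorem sum_prod_tuple (t : ℕ) (F : Fin t → V → ℝ) :
    ∑ x : Fin t → V, ∏ i, F i (x i) = ∏ i, ∑ v, F i v := by
  classical
  rw [Finset.prod_univ_sum, Fintype.piFinset_univ]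

theorem sum_tuple_one (t : ℕ) (R : V → ℝ) (φ : V → ℝ) (i : Fin t) :
    ∑ x : Fin t → V, (∏ l, R (x l)) * φ (x i) = (∑ v, R v) ^ (t - 1) * ∑ v, R v * φ v := by
  classical
  have h1 : ∀ x : Fin t → V, (∏ l, R (x l)) * φ (x i) =
      ∏ l, (fun l v => if l = i then R v * φ v else R v) l (x l) := by
    intro x
    rw [← mul_prod_erase univ (fun l => R (x l)) (mem_univ i),
      ← mul_prod_erase univ (fun l => (fun l v => if l = i then R v * φ v else R v) l (x l))
        (mem_univ i)]
    have h2 : ∏ l ∈ univ.erase i, (fun l v => if l = i then R v * φ v else R v) l (x l) =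
        ∏ l ∈ univ.erase i, R (x l) :=
      prod_congr rfl fun l hl => by simp [ne_of_mem_erase hl]
    rw [h2]
    simp only [if_true]
    ring
  refine (sum_congr rfl fun x _ => h1 x).trans ((sum_prod_tuple t
    (fun l v => if l = i then R v * φ v else R v)).trans ?_)
  rw [← mul_prod_erase univ _ (mem_univ i)]
  have h3 : ∏ l ∈ univ.erase i, ∑ v, (fun l v => if l = i then R v * φ v else R v) l v =
      ∏ l ∈ univ.erase i, ∑ v, R v :=
    prod_congr rfl fun l hl => by simp [ne_of_mem_erase hl]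
  rw [h3, prod_const, card_erase_of_mem (mem_univ i), card_univ, Fintype.card_fin]
  simp only [if_true]
  ring

theorem sum_tuple_two (t : ℕ) (R : V → ℝ) (ψ : V → V → ℝ) (i j : Fin t) (hij : i ≠ j) :
    ∑ x : Fin t → V, (∏ l, R (x l)) * ψ (x i) (x j) =
      (∑ v, R v) ^ (t - 2) * ∑ v, ∑ v', R v * R v' * ψ v v' := by
  classical
  -- product form
  have key : ∀ f g : V → ℝ, ∑ x : Fin t → V, (∏ l, R (x l)) * (f (x i) * g (x j)) =
      (∑ v, R v) ^ (t - 2) * ((∑ v, R v * f v) * ∑ v, R v * g v) := by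
    intro f g
    have h1 : ∀ x : Fin t → V, (∏ l, R (x l)) * (f (x i) * g (x j)) =
        ∏ l, (fun l v => if l = i then R v * f v else if l = j then R v * g v else R v) l (x l) := by
      intro x
      rw [← mul_prod_erase univ (fun l => R (x l)) (mem_univ i),
        ← mul_prod_erase univ (fun l => (fun l v => if l = i then R v * f v else
          if l = j then R v * g v else R v) l (x l)) (mem_univ i),
        ← mul_prod_erase (univ.erase i) (fun l => R (x l)) (mem_erase.2 ⟨hij.symm, mem_univ j⟩),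
        ← mul_prod_erase (univ.erase i) (fun l => (fun l v => if l = i then R v * f v else
          if l = j then R v * g v else R v) l (x l)) (mem_erase.2 ⟨hij.symm, mem_univ j⟩)]
      have h2 : ∏ l ∈ (univ.erase i).erase j, (fun l v => if l = i then R v * f v else
          if l = j then R v * g v else R v) l (x l) = ∏ l ∈ (univ.erase i).erase j, R (x l) :=
        prod_congr rfl fun l hl => by
          have h3 := ne_of_mem_erase hl
          have h4 := ne_of_mem_erase (mem_of_mem_erase hl)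
          simp [h3, h4]
      rw [h2]
      simp only [if_true, if_neg hij.symm]
      ring
    refine (sum_congr rfl fun x _ => h1 x).trans ((sum_prod_tuple t
      (fun l v => if l = i then R v * f v else if l = j then R v * g v else R v)).trans ?_)
    rw [← mul_prod_erase univ _ (mem_univ i),
      ← mul_prod_erase (univ.erase i) _ (mem_erase.2 ⟨hij.symm, mem_univ j⟩)]
    have h3 : ∏ l ∈ (univ.erase i).erase j, ∑ v, (fun l v => if l = i then R v * f v else
          if l = j then R v * g v else R v) l v =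
        ∏ l ∈ (univ.erase i).erase j, ∑ v, R v :=
      prod_congr rfl fun l hl => by
        have h3 := ne_of_mem_erase hl
        have h4 := ne_of_mem_erase (mem_of_mem_erase hl)
        simp [h3, h4]
    rw [h3, prod_const, card_erase_of_mem (mem_erase.2 ⟨hij.symm, mem_univ j⟩),
      card_erase_of_mem (mem_univ i), card_univ, Fintype.card_fin]
    simp only [if_true, if_neg hij.symm]
    rw [Nat.sub_sub]
    ring
  have h5 : ∀ x : Fin t → V, (∏ l, R (x l)) * ψ (x i) (x j) =
      ∑ v, ∑ v', (∏ l, R (x l)) * ((if x i = v then ψ v v' else 0) *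
        (if x j = v' then 1 else 0)) := by
    intro x
    rw [sum_eq_single (x i), sum_eq_single (x j)]
    · simp
    · intro v' _ hv'
      rw [if_neg hv'.symm (c := x j = v')]
      ring
    · intro h; exact absurd (mem_univ _) h
    · intro v _ hv
      apply sum_eq_zero
      intro v' _
      rw [if_neg hv.symm (c := x i = v)]
      ring
    · intro h; exact absurd (mem_univ _) h
  simp only [h5]
  rw [sum_comm]
  rw [mul_sum]
  refine sum_congr rfl fun v _ => ?_
  rw [sum_comm, mul_sum]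
  refine sum_congr rfl fun v' _ => ?_
  rw [key (fun a => if a = v then ψ v v' else 0) (fun b => if b = v' then 1 else 0)]
  have e1 : ∑ a, R a * (if a = v then ψ v v' else 0) = R v * ψ v v' := by
    rw [sum_eq_single v]
    · simp
    · intro b _ hb; simp [hb]
    · intro h; exact absurd (mem_univ _) h
  have e2 : ∑ a, R a * (if a = v' then (1 : ℝ) else 0) = R v' := by
    rw [sum_eq_single v']
    · simp
    · intro b _ hb; simp [hb]
    · intro h; exact absurd (mem_univ _) h
  rw [e1, e2]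
  ring

end

/-- `K` is positive semidefinite on all tuples of `t` vertices -/
def PSDt {V : Type} (K : V → V → ℝ) (t : ℕ) : Prop :=
  ∀ (x : Fin t → V) (c : Fin t → ℝ), 0 ≤ ∑ i, ∑ j, c i * c j * K (x i) (x j)

/-- sampling -/
theorem sampling {V : Type} [Fintype V] (K : V → V → ℝ) (t : ℕ) (ht : 1 ≤ t)
    (hK : PSDt K (t + 1)) (hsym : ∀ u v, K u v = K v u) (hK1 : ∀ u v, K u v ≤ 1)
    (hK0 : ∀ u v, 0 ≤ K u v) (R : V → ℝ) (hR : ∀ v, 0 ≤ R v) (u : V) (α : ℝ) :
    -((∑ v, R v) ^ 2 / t) ≤ α ^ 2 * K u u + 2 * α * ∑ v, R v * K u v +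
      ∑ v, ∑ v', R v * R v' * K v v' := by
  have ht0 : (0 : ℝ) < t := by exact_mod_cast ht
  set σ : ℝ := ∑ v, R v with hσ
  set A1 : ℝ := ∑ v, R v * K u v with hA1
  set A2 : ℝ := ∑ v, ∑ v', R v * R v' * K v v' with hA2
  set A0 : ℝ := ∑ v, R v * K v v with hA0
  have hσ0 : 0 ≤ σ := sum_nonneg fun v _ => hR v
  have hA2n : 0 ≤ A2 := sum_nonneg fun v _ => sum_nonneg fun v' _ =>
    mul_nonneg (mul_nonneg (hR v) (hR v')) (hK0 v v')
  have hA0le : A0 ≤ σ := sum_le_sum fun v _ => mul_le_of_le_one_right (hR v) (hK1 v v)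
  rcases hσ0.eq_or_lt with h0 | hpos
  · have hR0 : ∀ v, R v = 0 := fun v =>
      (sum_eq_zero_iff_of_nonneg (fun v _ => hR v)).1 h0.symm v (mem_univ v)
    have e1 : A1 = 0 := sum_eq_zero fun v _ => by rw [hR0 v, zero_mul]
    have e2 : A2 = 0 := sum_eq_zero fun v _ => sum_eq_zero fun v' _ => by
      rw [hR0 v, zero_mul, zero_mul]
    rw [e1, e2, ← h0]
    have := mul_nonneg (sq_nonneg α) (hK0 u u)
    simp only [ne_eq, OfNat.ofNat_ne_zero, not_false_eq_true, zero_pow, zero_div, neg_zero,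
      mul_zero, add_zero]
    exact this
  -- the sum over tuples
  have hform : ∀ x : Fin t → V, 0 ≤ α ^ 2 * K u u + 2 * (α * (σ / t)) * ∑ i, K u (x i) +
      (σ / t) ^ 2 * ∑ i, ∑ j, K (x i) (x j) := by
    intro x
    have h1 := hK (Fin.cons u x) (Fin.cons α fun _ => σ / t)
    rw [Fin.sum_univ_succ] at h1
    simp only [Fin.sum_univ_succ, Fin.cons_zero, Fin.cons_succ] at h1
    have e1 : ∑ i, α * (σ / t) * K u (x i) = α * (σ / t) * ∑ i, K u (x i) := by rw [mul_sum]
    have e2 : ∑ i, (σ / t * α * K (x i) u + ∑ j, σ / t * (σ / t) * K (x i) (x j)) =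
        α * (σ / t) * (∑ i, K u (x i)) + (σ / t) ^ 2 * ∑ i, ∑ j, K (x i) (x j) := by
      rw [sum_add_distrib, mul_sum, mul_sum]
      congr 1
      · exact sum_congr rfl fun i _ => by rw [hsym (x i) u]; ring
      · refine sum_congr rfl fun i _ => ?_
        rw [mul_sum]
        exact sum_congr rfl fun j _ => by ring_nf
    rw [e1, e2] at h1
    linarith
  have hsum : 0 ≤ ∑ x : Fin t → V, (∏ l, R (x l)) * (α ^ 2 * K u u +
      2 * (α * (σ / t)) * ∑ i, K u (x i) + (σ / t) ^ 2 * ∑ i, ∑ j, K (x i) (x j)) :=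
    sum_nonneg fun x _ => mul_nonneg (prod_nonneg fun l _ => hR _) (hform x)
  have hexp : ∑ x : Fin t → V, (∏ l, R (x l)) * (α ^ 2 * K u u +
      2 * (α * (σ / t)) * ∑ i, K u (x i) + (σ / t) ^ 2 * ∑ i, ∑ j, K (x i) (x j)) =
      σ ^ t * (α ^ 2 * K u u) + 2 * (α * (σ / t)) * (t * (σ ^ (t - 1) * A1)) +
      (σ / t) ^ 2 * (t * (σ ^ (t - 1) * A0) + t * (t - 1) * (σ ^ (t - 2) * A2)) := by
    have s0 : ∑ x : Fin t → V, ∏ l, R (x l) = σ ^ t := by
      rw [sum_prod_tuple t (fun _ => R), prod_const, card_univ, Fintype.card_fin]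
    have s1 : ∑ x : Fin t → V, (∏ l, R (x l)) * ∑ i, K u (x i) = t * (σ ^ (t - 1) * A1) := by
      simp only [mul_sum]
      rw [sum_comm]
      simp only [sum_tuple_one t R (fun v => K u v)]
      rw [sum_const, card_univ, Fintype.card_fin, nsmul_eq_mul]
    have s2 : ∑ x : Fin t → V, (∏ l, R (x l)) * ∑ i, ∑ j, K (x i) (x j) =
        t * (σ ^ (t - 1) * A0) + t * (t - 1) * (σ ^ (t - 2) * A2) := by
      have h1 : ∀ x : Fin t → V, (∏ l, R (x l)) * ∑ i, ∑ j, K (x i) (x j) =
          ∑ i, ∑ j, (∏ l, R (x l)) * K (x i) (x j) := by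
        intro x
        simp only [mul_sum]
      simp only [h1]
      rw [sum_comm]
      have h2 : ∀ i : Fin t, ∑ x : Fin t → V, ∑ j, (∏ l, R (x l)) * K (x i) (x j) =
          σ ^ (t - 1) * A0 + (t - 1) * (σ ^ (t - 2) * A2) := by
        intro i
        rw [sum_comm, ← add_sum_erase univ _ (mem_univ i)]
        congr 1
        · exact sum_tuple_one t R (fun v => K v v) i
        · have h3 : ∀ j ∈ univ.erase i, ∑ x : Fin t → V, (∏ l, R (x l)) * K (x i) (x j) =
              σ ^ (t - 2) * A2 := fun j hj =>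
            sum_tuple_two t R K i j (ne_of_mem_erase hj).symm
          rw [sum_congr rfl h3, sum_const, card_erase_of_mem (mem_univ i), card_univ,
            Fintype.card_fin, nsmul_eq_mul, Nat.cast_sub ht, Nat.cast_one]
      simp only [h2]
      rw [sum_const, card_univ, Fintype.card_fin, nsmul_eq_mul]
      ring
    have h4 : ∀ x : Fin t → V, (∏ l, R (x l)) * (α ^ 2 * K u u +
      2 * (α * (σ / t)) * ∑ i, K u (x i) + (σ / t) ^ 2 * ∑ i, ∑ j, K (x i) (x j)) =
      (∏ l, R (x l)) * (α ^ 2 * K u u) + 2 * (α * (σ / t)) * ((∏ l, R (x l)) * ∑ i, K u (x i)) +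
      (σ / t) ^ 2 * ((∏ l, R (x l)) * ∑ i, ∑ j, K (x i) (x j)) := fun x => by ring
    simp only [h4]
    rw [sum_add_distrib, sum_add_distrib, ← mul_sum, ← mul_sum, s1, s2, ← sum_mul, s0]
  rw [hexp] at hsum
  -- divide by `σ ^ t`
  have hσt : 0 < σ ^ t := pow_pos hpos t
  have e1 : σ ^ t = σ * σ ^ (t - 1) := by
    rw [← pow_succ']
    congr 1
    omega
  have hfin : 0 ≤ α ^ 2 * K u u + 2 * α * A1 + (σ / t) * A0 + (1 - 1 / t) * A2 := by
    rcases Nat.lt_or_ge t 2 with h1 | h2
    · have ht1 : t = 1 := by omega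
      subst ht1
      simp only [Nat.cast_one, sub_self, mul_zero, zero_mul, add_zero, pow_one, pow_zero, one_mul,
        div_one, Nat.sub_self] at hsum ⊢
      have h3 : σ * (α ^ 2 * K u u) + 2 * (α * σ) * A1 + σ ^ 2 * A0 =
          σ * (α ^ 2 * K u u + 2 * α * A1 + σ * A0) := by ring
      rw [h3] at hsum
      exact nonneg_of_mul_nonneg_right hsum hpos
    · have e2 : σ ^ (t - 1) = σ * σ ^ (t - 2) := by
        rw [← pow_succ']
        congr 1
        omega
      have hs2 : 0 < σ ^ (t - 2) := pow_pos hpos _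
      have h3 : σ ^ t * (α ^ 2 * K u u) + 2 * (α * (σ / t)) * (t * (σ ^ (t - 1) * A1)) +
          (σ / t) ^ 2 * (t * (σ ^ (t - 1) * A0) + t * (t - 1) * (σ ^ (t - 2) * A2)) =
          (σ ^ 2 * σ ^ (t - 2)) * (α ^ 2 * K u u + 2 * α * A1 + (σ / t) * A0 +
            (1 - 1 / t) * A2) := by
        rw [e1, e2]
        field_simp
        ring
      rw [h3] at hsum
      exact nonneg_of_mul_nonneg_right hsum (by positivity)
  have h5 : (σ / t) * A0 ≤ σ ^ 2 / t := by
    have h6 := mul_le_mul_of_nonneg_left hA0le (by positivity : (0 : ℝ) ≤ σ / t)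
    calc (σ / t) * A0 ≤ σ / t * σ := h6
      _ = σ ^ 2 / t := by ring
  have h7 : 0 ≤ 1 / (t : ℝ) * A2 := by positivity
  linarith

/-! ### the walk -/

section
variable {W : Type} [Fintype W] [DecidableEq W]

/-- transition probabilities of the lazy walk -/
noncomputable def Pm (w : W → W → ℝ) (m : W → ℝ) (i : ℕ) (u v : W) : ℝ :=
  m v * ((lz w m)^[i] (dl m v)) u

/-- rate of leaving -/
noncomputable def rt (w : W → W → ℝ) (m : W → ℝ) (u : W) : ℝ := (∑ v, w u v) / (2 * m u)

variable {w : W → W → ℝ} {m : W → ℝ}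

theorem lz_iter_nonneg (hnet : IsNet w m) (f : W → ℝ) (hf : ∀ u, 0 ≤ f u) (i : ℕ) :
    ∀ u, 0 ≤ ((lz w m)^[i] f) u := by
  obtain ⟨-, -, h3, -, -, -⟩ := T_OP W w m hnet
  induction i with
  | zero => exact hf
  | succ i ih =>
    rw [Function.iterate_succ_apply']
    exact h3 _ ih

theorem dl_nonneg (hnet : IsNet w m) (v u : W) : 0 ≤ dl m v u := by
  unfold dl
  split_ifs
  · exact (div_pos one_pos (hnet.pos v)).le
  · exact le_rfl

theorem Pm_nonneg (hnet : IsNet w m) (i : ℕ) (u v : W) : 0 ≤ Pm w m i u v :=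
  mul_nonneg (hnet.pos v).le (lz_iter_nonneg hnet _ (dl_nonneg hnet v) i u)

theorem Pm_zero (hnet : IsNet w m) (u v : W) : Pm w m 0 u v = if u = v then 1 else 0 := by
  unfold Pm dl
  have h := (hnet.pos v).ne'
  split_ifs with h1
  · simp only [Function.iterate_zero, id_eq, if_pos h1]
    field_simp
  · simp only [Function.iterate_zero, id_eq, if_neg h1, mul_zero]

theorem Pm_apply (hnet : IsNet w m) (f : W → ℝ) (i : ℕ) (u : W) :
    ((lz w m)^[i] f) u = ∑ v, Pm w m i u v * f v := by
  rw [GC.it_kernel T_OP w m hnet f i u]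
  refine sum_congr rfl fun v _ => ?_
  unfold Pm
  ring

theorem lz_one (hnet : IsNet w m) (i : ℕ) (u : W) : ((lz w m)^[i] (fun _ => (1 : ℝ))) u = 1 := by
  have h : (lz w m)^[i] (fun _ => (1 : ℝ)) = fun _ => 1 := by
    induction i with
    | zero => rfl
    | succ i ih =>
      rw [Function.iterate_succ_apply', ih]
      funext u
      unfold lz
      simp
  rw [h]

theorem Pm_sum (hnet : IsNet w m) (i : ℕ) (u : W) : ∑ v, Pm w m i u v = 1 := by
  have h := Pm_apply hnet (fun _ => (1 : ℝ)) i u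
  rw [lz_one hnet] at h
  rw [h]
  exact sum_congr rfl fun v _ => (mul_one _).symm

theorem Pm_add (hnet : IsNet w m) (i j : ℕ) (u v : W) :
    Pm w m (i + j) u v = ∑ x, Pm w m i u x * Pm w m j x v := by
  have h1 : ((lz w m)^[i + j] (dl m v)) u = ∑ x, Pm w m i u x * ((lz w m)^[j] (dl m v)) x := by
    rw [Function.iterate_add_apply, Pm_apply hnet]
  unfold Pm at h1 ⊢
  rw [h1, mul_sum]
  exact sum_congr rfl fun x _ => by ring

theorem Pm_rev (hnet : IsNet w m) (i : ℕ) (u v : W) :
    m u * Pm w m i u v = m v * Pm w m i v u := by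
  obtain ⟨hs, -, -, -, -, -⟩ := T_OP W w m hnet
  have h1 := LCX.move hs (dl m v) (dl m u) i
  have e1 : ∀ g : W → ℝ, ip m g (dl m u) = g u := by
    intro g
    unfold ip dl
    rw [sum_eq_single u]
    · rw [if_pos rfl]
      have := (hnet.pos u).ne'
      field_simp
    · intro b _ hb; rw [if_neg hb, mul_zero]
    · intro h; exact absurd (mem_univ _) h
  have e2 : ∀ g : W → ℝ, ip m (dl m v) g = g v := by
    intro g
    unfold ip dl
    rw [sum_eq_single v]
    · rw [if_pos rfl]
      have := (hnet.pos v).ne'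
      field_simp
    · intro b _ hb; rw [if_neg hb, mul_zero, zero_mul]
    · intro h; exact absurd (mem_univ _) h
  rw [e1, e2] at h1
  unfold Pm
  rw [h1]
  ring

theorem rt_nonneg (hnet : IsNet w m) (u : W) : 0 ≤ rt w m u :=
  div_nonneg (sum_nonneg fun v _ => hnet.nonneg u v) (by have := hnet.pos u; linarith)

theorem rt_le (hnet : IsNet w m) (u : W) : rt w m u ≤ 1 / 2 := by
  unfold rt
  have h1 := hnet.pos u
  have h2 := hnet.deg u
  rw [div_le_iff₀ (by linarith)]
  linarith

theorem Pm_one_self (hnet : IsNet w m) (u : W) : 1 - rt w m u ≤ Pm w m 1 u u := by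
  unfold Pm rt
  rw [Function.iterate_one]
  unfold lz
  have h := hnet.pos u
  have h1 : ∑ v, w u v * (dl m u u - dl m u v) ≤ ∑ v, w u v * (1 / m u) := by
    refine sum_le_sum fun v _ => mul_le_mul_of_nonneg_left ?_ (hnet.nonneg u v)
    have h2 := dl_nonneg hnet u v
    have h3 : dl m u u = 1 / m u := by unfold dl; rw [if_pos rfl]
    rw [h3]
    linarith
  have h3 : dl m u u = 1 / m u := by unfold dl; rw [if_pos rfl]
  rw [← sum_mul] at h1
  have h4 : m u * (dl m u u - (∑ v, w u v * (dl m u u - dl m u v)) / (2 * m u)) =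
      1 - (∑ v, w u v * (dl m u u - dl m u v)) / 2 := by
    rw [h3]
    field_simp
  rw [h4]
  have h5 : (∑ v, w u v) * (1 / m u) / 2 = (∑ v, w u v) / (2 * m u) := by
    field_simp
  rw [← h5]
  linarith

theorem Pm_self (hnet : IsNet w m) (u : W) (i : ℕ) : (1 - rt w m u) ^ i ≤ Pm w m i u u := by
  induction i with
  | zero => rw [Pm_zero hnet]; simp
  | succ i ih =>
    rw [Pm_add hnet, pow_succ]
    have h1 : Pm w m i u u * Pm w m 1 u u ≤ ∑ x, Pm w m i u x * Pm w m 1 x u :=
      single_le_sum (f := fun x => Pm w m i u x * Pm w m 1 x u)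
        (fun x _ => mul_nonneg (Pm_nonneg hnet i u x) (Pm_nonneg hnet 1 x u)) (mem_univ u)
    refine le_trans ?_ h1
    exact mul_le_mul ih (Pm_one_self hnet u) (by have := rt_le hnet u; linarith)
      (Pm_nonneg hnet i u u)

/-- correlation after `i` steps -/
noncomputable def Fc (w : W → W → ℝ) (m : W → ℝ) (K : W → W → ℝ) (i : ℕ) : ℝ :=
  ∑ u, m u * ∑ v, Pm w m i u v * K u v

theorem Fc_zero (hnet : IsNet w m) (K : W → W → ℝ) : Fc w m K 0 = ∑ u, m u * K u u := by
  unfold Fc
  refine sum_congr rfl fun u _ => ?_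
  congr 1
  rw [sum_eq_single u]
  · rw [Pm_zero hnet]; simp
  · intro b _ hb; rw [Pm_zero hnet, if_neg hb.symm, zero_mul]
  · intro h; exact absurd (mem_univ _) h

theorem Fc_one (hnet : IsNet w m) (K : W → W → ℝ) (hsym : ∀ u v, K u v = K v u) :
    Fc w m K 1 = ∑ u, m u * K u u -
      1 / 4 * ∑ u, ∑ v, w u v * (K u u + K v v - 2 * K u v) := by
  have h1 : ∀ u, m u * ∑ v, Pm w m 1 u v * K u v =
      m u * K u u - 1 / 2 * ∑ v, w u v * (K u u - K u v) := by
    intro u
    have h2 := Pm_apply hnet (fun v => K u v) 1 u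
    rw [← h2, Function.iterate_one]
    have h3 := OPX.m_lz hnet (fun v => K u v) u
    exact h3
  unfold Fc
  simp only [h1]
  rw [sum_sub_distrib, ← mul_sum]
  have h4 : ∑ u, ∑ v, w u v * (K u u + K v v - 2 * K u v) =
      2 * ∑ u, ∑ v, w u v * (K u u - K u v) := by
    have h5 : ∑ u, ∑ v, w u v * (K v v - K u v) = ∑ u, ∑ v, w u v * (K u u - K u v) := by
      rw [sum_comm]
      refine sum_congr rfl fun u _ => sum_congr rfl fun v _ => ?_
      rw [hnet.symm v u, hsym v u]
    rw [two_mul]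
    nth_rewrite 2 [← h5]
    rw [← sum_add_distrib]
    refine sum_congr rfl fun u _ => ?_
    rw [← sum_add_distrib]
    exact sum_congr rfl fun v _ => by ring
  rw [h4]
  ring

/-- the doubling inequality -/
theorem doubling (hnet : IsNet w m) (K : W → W → ℝ) (t : ℕ) (ht : 1 ≤ t)
    (hK : PSDt K (t + 1)) (hsym : ∀ u v, K u v = K v u) (hK1 : ∀ u v, K u v ≤ 1)
    (hK0 : ∀ u v, 0 ≤ K u v) (i : ℕ) (a : ℝ) :
    2 * a * Fc w m K i - a ^ 2 * Fc w m K 0 -
      (∑ u, m u * (1 - (1 - rt w m u) ^ i) ^ 2) / t ≤ Fc w m K (i + i) := by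
  have ht0 : (0 : ℝ) < t := by exact_mod_cast ht
  -- per vertex
  have hper : ∀ u, 2 * a * (∑ v, Pm w m i u v * K u v) - a ^ 2 * K u u -
      (1 - (1 - rt w m u) ^ i) ^ 2 / t ≤
      ∑ v, ∑ v', Pm w m i u v * Pm w m i u v' * K v v' := by
    intro u
    set p : ℝ := (1 - rt w m u) ^ i with hp
    set R : W → ℝ := fun v => Pm w m i u v - if v = u then p else 0 with hR
    have hR0 : ∀ v, 0 ≤ R v := by
      intro v
      simp only [hR]
      split_ifs with h
      · rw [h]
        have := Pm_self hnet u i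
        linarith
      · rw [sub_zero]
        exact Pm_nonneg hnet i u v
    have hsumR : ∑ v, R v = 1 - p := by
      simp only [hR]
      rw [sum_sub_distrib, Pm_sum hnet]
      simp
    have h := sampling K t ht hK hsym hK1 hK0 R hR0 u (p - a)
    rw [hsumR] at h
    have e1 : ∑ v, Pm w m i u v * K u v = p * K u u + ∑ v, R v * K u v := by
      have : ∀ v, Pm w m i u v * K u v = (if v = u then p * K u u else 0) + R v * K u v := by
        intro v
        simp only [hR]
        split_ifs with h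
        · rw [h]; ring
        · ring
      simp only [this]
      rw [sum_add_distrib]
      simp
    have e2 : ∑ v, ∑ v', Pm w m i u v * Pm w m i u v' * K v v' =
        p ^ 2 * K u u + 2 * p * (∑ v, R v * K u v) + ∑ v, ∑ v', R v * R v' * K v v' := by
      have h1 : ∀ g : W → ℝ, ∑ v, Pm w m i u v * g v = p * g u + ∑ v, R v * g v := by
        intro g
        have : ∀ v, Pm w m i u v * g v = (if v = u then p * g u else 0) + R v * g v := by
          intro v
          simp only [hR]
          split_ifs with h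
          · rw [h]; ring
          · ring
        simp only [this]
        rw [sum_add_distrib]
        simp
      have h2 : ∀ v, ∑ v', Pm w m i u v * Pm w m i u v' * K v v' =
          Pm w m i u v * (p * K v u + ∑ v', R v' * K v v') := by
        intro v
        rw [← h1 (fun v' => K v v'), mul_sum]
        exact sum_congr rfl fun v' _ => by ring
      simp only [h2]
      rw [h1 (fun v => p * K v u + ∑ v', R v' * K v v')]
      have h3 : ∑ v, R v * (p * K v u + ∑ v', R v' * K v v') =
          p * (∑ v, R v * K u v) + ∑ v, ∑ v', R v * R v' * K v v' := by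
        have : ∀ v, R v * (p * K v u + ∑ v', R v' * K v v') =
            p * (R v * K u v) + ∑ v', R v * R v' * K v v' := by
          intro v
          rw [mul_add, mul_sum, hsym v u]
          congr 1
          · ring
          · exact sum_congr rfl fun v' _ => by ring
        simp only [this]
        rw [sum_add_distrib, ← mul_sum]
      rw [h3]
      ring
    rw [e1, e2]
    have e3 : (p - a) ^ 2 * K u u + 2 * (p - a) * ∑ v, R v * K u v +
        ∑ v, ∑ v', R v * R v' * K v v' =
        (p ^ 2 * K u u + 2 * p * (∑ v, R v * K u v) + ∑ v, ∑ v', R v * R v' * K v v') -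
        2 * a * (p * K u u + ∑ v, R v * K u v) + a ^ 2 * K u u := by ring
    rw [e3] at h
    linarith
  -- the sum
  have hd : Fc w m K (i + i) = ∑ u, m u * ∑ v, ∑ v', Pm w m i u v * Pm w m i u v' * K v v' := by
    unfold Fc
    have h1 : ∀ v, m v * ∑ v', Pm w m (i + i) v v' * K v v' =
        ∑ u, ∑ v', m u * (Pm w m i u v * Pm w m i u v' * K v v') := by
      intro v
      have h2 : ∀ v', Pm w m (i + i) v v' * K v v' =
          ∑ u, Pm w m i v u * Pm w m i u v' * K v v' := by
        intro v'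
        rw [Pm_add hnet, sum_mul]
      simp only [h2]
      rw [sum_comm, mul_sum]
      refine sum_congr rfl fun u _ => ?_
      rw [mul_sum]
      refine sum_congr rfl fun v' _ => ?_
      have h3 := Pm_rev hnet i v u
      calc m v * (Pm w m i v u * Pm w m i u v' * K v v') =
          (m v * Pm w m i v u) * (Pm w m i u v' * K v v') := by ring
        _ = (m u * Pm w m i u v) * (Pm w m i u v' * K v v') := by rw [h3]
        _ = _ := by ring
    simp only [h1]
    rw [sum_comm]
    refine sum_congr rfl fun u _ => ?_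
    simp only [mul_sum]
  rw [hd, Fc_zero hnet]
  have h4 : 2 * a * Fc w m K i - a ^ 2 * ∑ u, m u * K u u -
      (∑ u, m u * (1 - (1 - rt w m u) ^ i) ^ 2) / t =
      ∑ u, m u * (2 * a * (∑ v, Pm w m i u v * K u v) - a ^ 2 * K u u -
      (1 - (1 - rt w m u) ^ i) ^ 2 / t) := by
    unfold Fc
    rw [mul_sum, mul_sum, sum_div, ← sum_sub_distrib, ← sum_sub_distrib]
    exact sum_congr rfl fun u _ => by ring
  rw [h4]
  exact sum_le_sum fun u _ => mul_le_mul_of_nonneg_left (hper u) (hnet.pos u).le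

end

/-! ### numbers -/

/-- summing the errors of the doublings -/
theorem sum_err (a : ℝ) (h0 : 0 ≤ a) (S : ℕ) :
    ∑ j ∈ range S, (1 / 2 : ℝ) ^ j * (min 1 (2 ^ j * a)) ^ 2 ≤ 4 * a := by
  set ψ : ℝ → ℝ := fun y => if y ≤ 1 then 4 * y - 2 * y ^ 2 else 2 with hψ
  have h1 : ∀ y : ℝ, 0 ≤ y → (min 1 y) ^ 2 + ψ (2 * y) / 2 ≤ ψ y := by
    intro y hy
    simp only [hψ]
    rcases le_total y 1 with h | h
    · rw [min_eq_right h, if_pos h]
      split_ifs with h2
      · nlinarith
      · push Not at h2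
        nlinarith [mul_nonneg (sub_nonneg.2 h) (by linarith : (0 : ℝ) ≤ 3 * y - 1)]
    · rw [min_eq_left h, if_neg (by linarith : ¬ 2 * y ≤ 1)]
      split_ifs with h2
      · have : y = 1 := le_antisymm h2 h
        rw [this]; norm_num
      · norm_num
  have hψ0 : ∀ y : ℝ, 0 ≤ y → 0 ≤ ψ y := by
    intro y hy
    simp only [hψ]
    split_ifs with h
    · nlinarith
    · norm_num
  have key : ∀ S : ℕ, ∑ j ∈ range S, (1 / 2 : ℝ) ^ j * (min 1 (2 ^ j * a)) ^ 2 +
      (1 / 2 : ℝ) ^ S * ψ (2 ^ S * a) ≤ ψ a := by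
    intro S
    induction S with
    | zero => simp
    | succ S ih =>
      rw [sum_range_succ]
      have h2 := h1 (2 ^ S * a) (by positivity)
      have h3 : (1 / 2 : ℝ) ^ (S + 1) * ψ (2 ^ (S + 1) * a) =
          (1 / 2) ^ S * (ψ (2 * (2 ^ S * a)) / 2) := by
        rw [pow_succ, show (2 : ℝ) ^ (S + 1) * a = 2 * (2 ^ S * a) by rw [pow_succ]; ring]
        ring
      rw [h3]
      have h4 := mul_le_mul_of_nonneg_left h2 (by positivity : (0 : ℝ) ≤ (1 / 2) ^ S)
      rw [mul_add] at h4
      linarith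
  have h5 := key S
  have h6 : 0 ≤ (1 / 2 : ℝ) ^ S * ψ (2 ^ S * a) := mul_nonneg (by positivity)
    (hψ0 _ (by positivity))
  have h7 : ψ a ≤ 4 * a := by
    simp only [hψ]
    split_ifs with h
    · nlinarith
    · linarith
  linarith

theorem exp_two (y : ℝ) (h0 : 0 ≤ y) (h1 : y ≤ 1 / 2) : Real.exp (-(2 * y)) ≤ 1 - y := by
  have h2 : Real.exp (-(2 * y)) ≤ 1 / (1 + 2 * y) := by
    rw [Real.exp_neg, ← one_div]
    exact one_div_le_one_div_of_le (by linarith) (by linarith [Real.add_one_le_exp (2 * y)])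
  refine h2.trans ?_
  rw [div_le_iff₀ (by linarith)]
  nlinarith

/-- iterating an approximate squaring inequality -/
theorem squaring (g y : ℕ → ℝ) (η0 η1 ρ : ℝ) (S : ℕ) (hg0 : Real.exp (-η0) ≤ g 0)
    (hstep : ∀ j < S, g j ^ 2 - y j * ρ ^ 2 ≤ g (j + 1)) (hy0 : ∀ j, 0 ≤ y j)
    (hy1 : ∀ j, y j ≤ 1 / 2) (hsum : ∑ j ∈ range S, (1 / 2 : ℝ) ^ j * y j ≤ η1)
    (hρ0 : 0 ≤ ρ) (hη0 : 0 ≤ η0) (hρ : ρ ≤ Real.exp (-(2 ^ S * (η0 + η1)))) :
    Real.exp (-(2 ^ S * (η0 + η1))) ≤ g S := by
  have key : ∀ j ≤ S, Real.exp (-(2 ^ j * (η0 + ∑ i ∈ range j, (1 / 2 : ℝ) ^ i * y i))) ≤ g j := by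
    intro j
    induction j with
    | zero => intro _; simpa using hg0
    | succ j ih =>
      intro hj
      have h1 := ih (by omega)
      set H : ℝ := ∑ i ∈ range j, (1 / 2 : ℝ) ^ i * y i with hH
      have hHle : H ≤ η1 := by
        refine le_trans ?_ hsum
        exact sum_le_sum_of_subset_of_nonneg (range_subset_range.2 (by omega))
          fun i _ _ => mul_nonneg (by positivity) (hy0 i)
      have hH0 : 0 ≤ H := sum_nonneg fun i _ => mul_nonneg (by positivity) (hy0 i)
      set G : ℝ := Real.exp (-(2 ^ j * (η0 + H))) with hG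
      have hG0 : 0 < G := Real.exp_pos _
      have hρG : ρ ≤ G := by
        refine hρ.trans (Real.exp_le_exp.2 (neg_le_neg ?_))
        exact mul_le_mul (pow_le_pow_right₀ (by norm_num) (by omega)) (by linarith)
          (by linarith) (by positivity)
      have h2 : G ^ 2 * (1 - y j) ≤ g (j + 1) := by
        refine le_trans ?_ (hstep j (by omega))
        have h3 : G ^ 2 ≤ g j ^ 2 := pow_le_pow_left₀ hG0.le h1 2
        have h4 : y j * ρ ^ 2 ≤ y j * G ^ 2 :=
          mul_le_mul_of_nonneg_left (pow_le_pow_left₀ hρ0 hρG 2) (hy0 j)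
        linarith
      refine le_trans ?_ h2
      have h5 := mul_le_mul_of_nonneg_left (exp_two (y j) (hy0 j) (hy1 j)) (sq_nonneg G)
      refine le_trans (le_of_eq ?_) h5
      rw [hG, ← Real.exp_nat_mul, ← Real.exp_add, sum_range_succ, ← hH]
      congr 1
      have h6 : (2 : ℝ) ^ (j + 1) * (1 / 2) ^ j = 2 := by
        rw [pow_succ, mul_comm ((2 : ℝ) ^ j) 2, mul_assoc, ← mul_pow]
        norm_num
      have h7 : (2 : ℝ) ^ (j + 1) * (η0 + (H + (1 / 2) ^ j * y j)) =
          2 * (2 ^ j * (η0 + H)) + (2 ^ (j + 1) * (1 / 2) ^ j) * y j := by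
        rw [pow_succ]; ring
      rw [h7, h6]
      push_cast
      ring
  have h := key S le_rfl
  refine le_trans (Real.exp_le_exp.2 (neg_le_neg ?_)) h
  exact mul_le_mul_of_nonneg_left (by linarith) (by positivity)

end Pool.Agent.T6.H63.SA
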