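import Pool.Agent.TH522.UG.GC
import Pool.Agent.T6.H63.SA.Walk

/-!
Global correlation of a kernel of small energy which is positive semidefinite on small tuples.
-/

namespace Pool.Agent.T6.H63.SA

open Finset Pool.Agent.H647R3.UG Pool.Agent.H573R3.SL

/-- The number of steps. -/
theorem numbers2 (l τ q s0 : ℝ) (hl : 0 < l) (hτ : 0 < τ) (hτ1 : τ ≤ 1) (hq : 0 < q)
    (hq1 : q ≤ 1) (h0 : 0 < s0) (h1 : s0 ≤ 1) (hsl : s0 * l ≤ 1) :
    ∃ S : ℕ, (1 - s0 * l / 4) ^ (2 ^ S) ≤ q ∧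
      (2 : ℝ) ^ S * (s0 * τ + s0 * τ) ≤ 16 * τ / l * Real.log (1 / q) + 4 := by
  have hL : 0 ≤ Real.log (1 / q) := Real.log_nonneg (by rw [le_div_iff₀ hq]; linarith)
  have hsl0 : 0 < s0 * l := mul_pos h0 hl
  set X : ℝ := 4 / (s0 * l) * Real.log (1 / q) with hX
  have hX0 : 0 ≤ X := by positivity
  obtain ⟨n, hn1, hn2⟩ := exists_nat_pow_near (by linarith : (1 : ℝ) ≤ X + 1)
    (by norm_num : (1 : ℝ) < 2)
  refine ⟨n + 1, ?_, ?_⟩
  · have a1 : 1 - s0 * l / 4 ≤ Real.exp (-(s0 * l / 4)) := by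
      have := Real.add_one_le_exp (-(s0 * l / 4))
      linarith
    have hT : X ≤ ((2 ^ (n + 1) : ℕ) : ℝ) := by
      push_cast
      linarith
    calc (1 - s0 * l / 4) ^ (2 ^ (n + 1)) ≤ Real.exp (-(s0 * l / 4)) ^ (2 ^ (n + 1)) :=
          pow_le_pow_left₀ (by linarith) a1 _
      _ = Real.exp (((2 ^ (n + 1) : ℕ) : ℝ) * -(s0 * l / 4)) := by rw [← Real.exp_nat_mul]
      _ ≤ Real.exp (-Real.log (1 / q)) := by
          apply Real.exp_le_exp.2
          have a2 : Real.log (1 / q) = X * (s0 * l / 4) := by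
            rw [hX]
            field_simp
          have a3 : X * (s0 * l / 4) ≤ ((2 ^ (n + 1) : ℕ) : ℝ) * (s0 * l / 4) :=
            mul_le_mul_of_nonneg_right hT (by positivity)
          linarith
      _ = q := by
          rw [← Real.log_inv, one_div, inv_inv, Real.exp_log hq]
  · have hst : 0 ≤ s0 * τ := by positivity
    have hst1 : s0 * τ ≤ 1 := by nlinarith
    have h3 : (2 : ℝ) ^ (n + 1) ≤ 2 * X + 2 := by
      rw [pow_succ]
      linarith
    calc (2 : ℝ) ^ (n + 1) * (s0 * τ + s0 * τ) ≤ (2 * X + 2) * (s0 * τ + s0 * τ) :=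
          mul_le_mul_of_nonneg_right h3 (by positivity)
      _ = 4 * (X * (s0 * τ)) + 4 * (s0 * τ) := by ring
      _ = 16 * τ / l * Real.log (1 / q) + 4 * (s0 * τ) := by
          rw [hX]
          field_simp
          ring
      _ ≤ _ := by linarith

/-- the loss factor -/
noncomputable def rho (l τ q : ℝ) : ℝ := Real.exp (-(16 * τ / l * Real.log (1 / q) + 4))

theorem gclK (W : Type) [Fintype W]
    [DecidableEq W] (w : W → W → ℝ) (m : W → ℝ) (K : W → W → ℝ) (t : ℕ) (ht : 1 ≤ t)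
    (hK : PSDt K (t + 1)) (hKs : ∀ u v, K u v = K v u) (hK1 : ∀ u v, K u v ≤ 1)
    (hK0 : ∀ u v, 0 ≤ K u v) (l τ q M : ℝ) (hw : ∀ u v, 0 ≤ w u v)
    (hsym : ∀ u v, w u v = w v u)
    (hm : ∀ u, 0 < m u) (hl : 0 < l) (hLS : LSob w m l) (hτ : 0 < τ) (hτ1 : τ ≤ 1)
    (hq : 0 < q) (hq1 : q ≤ 1) (hM1 : ∑ u, m u ≤ M) (hM2 : ∑ u, ∑ v, w u v ≤ M)
    (ha : 0 < ∑ u, m u * K u u)
    (hen : 1 / 2 * ∑ u, ∑ v, w u v * (K u u + K v v - 2 * K u v) ≤ τ * ∑ u, m u * K u u)
    (htM : 2 * M ≤ t * (∑ u, m u * K u u) * rho l τ q ^ 2 * τ) :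
    (∑ u, m u * K u u) ^ 2 / 4 * (rho l τ q ^ 2 * (Fintype.card W : ℝ) ^ (-q))
      ≤ ∑ u, ∑ v, m u * m v * (K u v) ^ 2 := by
  classical
  have ht0 : (0 : ℝ) < t := by exact_mod_cast ht
  set a : ℝ := ∑ u, m u * K u u with had
  obtain ⟨s0, h0, h1, hsl, hdeg⟩ := GCL.exists_scale w m l hw hm hl
  set w' : W → W → ℝ := fun u v => s0 * w u v with hw'
  have hnet : IsNet w' m := by
    refine ⟨fun u v => mul_nonneg h0.le (hw u v), fun u v => ?_, hm, fun u => ?_⟩
    · simp only [hw']; rw [hsym u v]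
    · simp only [hw']
      rw [← mul_sum]
      exact hdeg u
  have hLS' : LSob w' m (s0 * l) := by
    intro h hh
    rw [hw', GCL.en_scale, mul_assoc]
    exact mul_le_mul_of_nonneg_left (hLS h hh) h0.le
  obtain ⟨S, hn1, hn2⟩ := numbers2 l τ q s0 hl hτ hτ1 hq hq1 h0 h1 hsl
  have hsl0 : 0 < s0 * l := mul_pos h0 hl
  set δ : ℝ := (1 - s0 * l / 4) ^ (2 ^ S) with hδ
  have hδ0 : 0 ≤ δ := pow_nonneg (by linarith) _
  have hδ1 : δ ≤ 1 := hn1.trans hq1
  have hne : Nonempty W := by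
    by_contra hcon
    rw [not_nonempty_iff] at hcon
    have : a = 0 := by
      rw [had]
      exact Finset.sum_of_isEmpty _
    rw [this] at ha
    exact lt_irrefl _ ha
  have hM : 0 < vol m univ := sum_pos (fun u _ => hnet.pos u) univ_nonempty
  set ρ : ℝ := rho l τ q with hρd
  have hρ0 : 0 < ρ := Real.exp_pos _
  have hst0 : 0 < s0 * τ := by positivity
  have hst1 : s0 * τ ≤ 1 := by nlinarith
  -- the correlation after `2 ^ S` steps
  have hFc0 : Fc w' m K 0 = a := Fc_zero hnet K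
  have hmain : ρ * a ≤ Fc w' m K (2 ^ S) := by
    set y : ℕ → ℝ := fun j => (∑ u, m u * (1 - (1 - rt w' m u) ^ (2 ^ j)) ^ 2) / t / (a * ρ ^ 2)
      with hy
    have hb : ∀ (j : ℕ) u, 0 ≤ 1 - (1 - rt w' m u) ^ (2 ^ j) ∧
        1 - (1 - rt w' m u) ^ (2 ^ j) ≤ min 1 (2 ^ j * rt w' m u) := by
      intro j u
      have r0 := rt_nonneg hnet u
      have r1 := rt_le hnet u
      have p0 : 0 ≤ (1 - rt w' m u) ^ (2 ^ j) := pow_nonneg (by linarith) _
      have p1 : (1 - rt w' m u) ^ (2 ^ j) ≤ 1 := pow_le_one₀ (by linarith) (by linarith)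
      refine ⟨by linarith, le_min (by linarith) ?_⟩
      have h2 := one_add_mul_le_pow (by linarith : (-2 : ℝ) ≤ -rt w' m u) (2 ^ j)
      rw [← sub_eq_add_neg] at h2
      push_cast at h2
      linarith
    have hsq := squaring (fun j => Fc w' m K (2 ^ j) / a) y (s0 * τ) (s0 * τ) ρ S
      (by
        show _ ≤ Fc w' m K (2 ^ 0) / a
        rw [pow_zero, Fc_one hnet K hKs, le_div_iff₀ ha]
        have e1 : ∑ u, ∑ v, w' u v * (K u u + K v v - 2 * K u v) =
            s0 * ∑ u, ∑ v, w u v * (K u u + K v v - 2 * K u v) := by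
          rw [mul_sum]
          refine sum_congr rfl fun u _ => ?_
          rw [mul_sum]
          refine sum_congr rfl fun v _ => ?_
          simp only [hw']
          ring
        rw [e1, ← had]
        have h2 := mul_le_mul_of_nonneg_left hen h0.le
        have h3 := exp_two (s0 * τ / 2) (by positivity) (by linarith)
        have h4 : 2 * (s0 * τ / 2) = s0 * τ := by ring
        rw [h4] at h3
        have h5 := mul_le_mul_of_nonneg_right h3 ha.le
        linarith)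
      (by
        intro j hj
        have h2 := doubling hnet K t ht hK hKs hK1 hK0 (2 ^ j) (Fc w' m K (2 ^ j) / a)
        rw [hFc0] at h2
        show (Fc w' m K (2 ^ j) / a) ^ 2 - y j * ρ ^ 2 ≤ Fc w' m K (2 ^ (j + 1)) / a
        rw [le_div_iff₀ ha]
        have e1 : 2 ^ (j + 1) = 2 ^ j + 2 ^ j := by rw [pow_succ]; ring
        rw [e1]
        refine le_trans (le_of_eq ?_) h2
        simp only [hy]
        field_simp
        ring)
      (by
        intro j
        simp only [hy]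
        exact div_nonneg (div_nonneg (sum_nonneg fun u _ => mul_nonneg (hm u).le (sq_nonneg _))
          ht0.le) (by positivity))
      (by
        intro j
        simp only [hy]
        have h2 : ∑ u, m u * (1 - (1 - rt w' m u) ^ (2 ^ j)) ^ 2 ≤ M := by
          refine le_trans (sum_le_sum fun u _ => ?_) hM1
          have h3 := hb j u
          have h4 : 1 - (1 - rt w' m u) ^ (2 ^ j) ≤ 1 := h3.2.trans (min_le_left _ _)
          have h5 : (1 - (1 - rt w' m u) ^ (2 ^ j)) ^ 2 ≤ 1 := by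
            have := pow_le_pow_left₀ h3.1 h4 2
            simpa using this
          exact mul_le_of_le_one_right (hm u).le h5
        rw [div_div, div_le_iff₀ (by positivity)]
        have h6 : t * a * ρ ^ 2 * τ ≤ t * a * ρ ^ 2 := mul_le_of_le_one_right (by positivity) hτ1
        nlinarith)
      (by
        -- the sum of the errors
        have h2 : ∑ j ∈ range S, (1 / 2 : ℝ) ^ j * y j =
            (∑ u, m u * ∑ j ∈ range S, (1 / 2 : ℝ) ^ j * (1 - (1 - rt w' m u) ^ (2 ^ j)) ^ 2)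
              / t / (a * ρ ^ 2) := by
          simp only [hy, mul_sum]
          rw [sum_comm, sum_div, sum_div]
          refine sum_congr rfl fun j _ => ?_
          rw [sum_div, sum_div, sum_div, sum_div, mul_sum]
          exact sum_congr rfl fun u _ => by ring
        rw [h2]
        have h3 : ∑ u, m u * ∑ j ∈ range S, (1 / 2 : ℝ) ^ j *
            (1 - (1 - rt w' m u) ^ (2 ^ j)) ^ 2 ≤ ∑ u, m u * (4 * rt w' m u) := by
          refine sum_le_sum fun u _ => mul_le_mul_of_nonneg_left ?_ (hm u).le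
          refine le_trans (sum_le_sum fun j _ => ?_) (sum_err (rt w' m u) (rt_nonneg hnet u) S)
          exact mul_le_mul_of_nonneg_left (pow_le_pow_left₀ (hb j u).1 (hb j u).2 2)
            (by positivity)
        have h4 : ∑ u, m u * (4 * rt w' m u) = 2 * s0 * ∑ u, ∑ v, w u v := by
          rw [mul_sum]
          refine sum_congr rfl fun u _ => ?_
          unfold rt
          have h5 := (hm u).ne'
          have h6 : ∑ v, w' u v = s0 * ∑ v, w u v := by
            rw [mul_sum]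
          rw [h6]
          field_simp
          ring
        rw [h4] at h3
        have h7 : 2 * s0 * ∑ u, ∑ v, w u v ≤ 2 * s0 * M :=
          mul_le_mul_of_nonneg_left hM2 (by positivity)
        rw [div_div, div_le_iff₀ (by positivity)]
        have h8 := mul_le_mul_of_nonneg_left htM h0.le
        calc _ ≤ 2 * s0 * M := h3.trans h7
          _ = s0 * (2 * M) := by ring
          _ ≤ s0 * (t * a * ρ ^ 2 * τ) := h8
          _ = _ := by ring)
      hρ0.le hst0.le
      (by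
        rw [hρd]
        unfold rho
        exact Real.exp_le_exp.2 (neg_le_neg hn2))
    have h9 : ρ ≤ Fc w' m K (2 ^ S) / a := by
      refine le_trans ?_ hsq
      rw [hρd]
      unfold rho
      exact Real.exp_le_exp.2 (neg_le_neg hn2)
    rwa [le_div_iff₀ ha] at h9
  set H : W → W → ℝ := fun u v => ((lz w' m)^[2 ^ S] (dl m v)) u with hH
  -- LC
  have l1 : ρ * a ≤ ∑ u, ∑ v, m u * m v * H u v * K u v := by
    refine hmain.trans (le_of_eq ?_)
    unfold Fc Pm
    refine sum_congr rfl fun u _ => ?_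
    rw [mul_sum]
    refine sum_congr rfl fun v _ => ?_
    simp only [hH]
    ring
  have hc0 : 0 ≤ ρ * a := by positivity
  -- Cauchy-Schwarz
  have l2 : (∑ u, ∑ v, m u * m v * H u v * K u v) ^ 2 ≤
      (∑ u, ∑ v, m u * m v * H u v ^ 2) * ∑ u, ∑ v, m u * m v * K u v ^ 2 := by
    have h := Finset.sum_sq_le_sum_mul_sum_of_sq_le_mul ((univ : Finset W) ×ˢ (univ : Finset W))
      (r := fun p => m p.1 * m p.2 * H p.1 p.2 * K p.1 p.2)
      (f := fun p => m p.1 * m p.2 * H p.1 p.2 ^ 2) (g := fun p => m p.1 * m p.2 * K p.1 p.2 ^ 2)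
      (fun p _ => mul_nonneg (mul_nonneg (hnet.pos _).le (hnet.pos _).le) (sq_nonneg _))
      (fun p _ => mul_nonneg (mul_nonneg (hnet.pos _).le (hnet.pos _).le) (sq_nonneg _))
      (fun p _ => le_of_eq (by ring))
    rwa [sum_product, sum_product, sum_product] at h
  have hn : (1 : ℝ) ≤ (Fintype.card W : ℝ) := by
    exact_mod_cast Fintype.card_pos
  have l3 : ∑ u, ∑ v, m u * m v * H u v ^ 2 ≤ 4 * (Fintype.card W : ℝ) ^ q := by
    rw [sum_comm]
    have h1 : ∀ v ∈ (univ : Finset W), ∑ u, m u * m v * H u v ^ 2 ≤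
        m v * (4 / vol m univ * (vol m univ / m v) ^ δ) := by
      intro v _
      have e : ∑ u, m u * m v * H u v ^ 2 = m v * ip m ((lz w' m)^[2 ^ S] (dl m v))
          ((lz w' m)^[2 ^ S] (dl m v)) := by
        unfold ip
        rw [mul_sum]
        apply sum_congr rfl
        intro u _
        simp only [hH]
        ring
      rw [e]
      exact mul_le_mul_of_nonneg_left (T_HDL T_OP (T_FKL T_EP) W w' m (s0 * l) hnet hsl0 hsl hLS'
        v (2 ^ S)) (hnet.pos v).le
    refine (sum_le_sum h1).trans ((T_SQ W m δ hm hδ0 hδ1).trans ?_)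
    exact mul_le_mul_of_nonneg_left (Real.rpow_le_rpow_of_exponent_le hn hn1) (by norm_num)
  set Q : ℝ := ∑ u, ∑ v, m u * m v * K u v ^ 2 with hQ
  have hQ0 : 0 ≤ Q := sum_nonneg fun u _ => sum_nonneg fun v _ =>
    mul_nonneg (mul_nonneg (hnet.pos _).le (hnet.pos _).le) (sq_nonneg _)
  have l4 : (ρ * a) ^ 2 ≤ 4 * (Fintype.card W : ℝ) ^ q * Q :=
    (pow_le_pow_left₀ hc0 l1 2).trans (l2.trans (mul_le_mul_of_nonneg_right l3 hQ0))
  have hp : 0 < (Fintype.card W : ℝ) ^ q := Real.rpow_pos_of_pos (by linarith) _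
  have hpn : (Fintype.card W : ℝ) ^ (-q) * (Fintype.card W : ℝ) ^ q = 1 := by
    rw [← Real.rpow_add (by linarith), neg_add_cancel, Real.rpow_zero]
  refine le_of_mul_le_mul_right ?_ hp
  calc a ^ 2 / 4 * (ρ ^ 2 * (Fintype.card W : ℝ) ^ (-q)) *
        (Fintype.card W : ℝ) ^ q
      = (ρ * a) ^ 2 / 4 *
        ((Fintype.card W : ℝ) ^ (-q) * (Fintype.card W : ℝ) ^ q) := by ring
    _ = (ρ * a) ^ 2 / 4 := by rw [hpn, mul_one]
    _ ≤ (4 * (Fintype.card W : ℝ) ^ q * Q) / 4 := by linarith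
    _ = Q * (Fintype.card W : ℝ) ^ q := by ring

open Pool.Agent.H573R3.SL.GCFL in
theorem gcflK (V : Type) [Fintype V]
    [DecidableEq V] (w : V → V → ℝ) (m : V → ℝ) (K : V → V → ℝ) (t : ℕ) (ht : 1 ≤ t)
    (hK : PSDt K (t + 1)) (hKs : ∀ u v, K u v = K v u) (hK1 : ∀ u v, K u v ≤ 1)
    (hK0 : ∀ u v, 0 ≤ K u v) (l τ q M : ℝ) (hw : ∀ u v, 0 ≤ w u v)
    (hsym : ∀ u v, w u v = w v u)
    (hm : ∀ u, 0 ≤ m u) (h0 : ∀ u, m u = 0 → ∀ v, w u v = 0)
    (hl : 0 < l) (hL : LSob w m l) (hτ : 0 < τ) (hτ1 : τ ≤ 1) (hq : 0 < q) (hq1 : q ≤ 1)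
    (hM1 : ∑ u, m u ≤ M) (hM2 : ∑ u, ∑ v, w u v ≤ M)
    (hpos : 0 < ∑ u, m u * K u u)
    (hen : 1 / 2 * ∑ u, ∑ v, w u v * (K u u + K v v - 2 * K u v) ≤ τ * ∑ u, m u * K u u)
    (htM : 2 * M ≤ t * (∑ u, m u * K u u) * rho l τ q ^ 2 * τ) :
    (∑ u, m u * K u u) ^ 2 / 4 * (rho l τ q ^ 2 * (Fintype.card V : ℝ) ^ (-q))
      ≤ ∑ u, ∑ v, m u * m v * (K u v) ^ 2 := by
  classical
  have e1 : ∑ u, m u * K u u = ∑ u : {v // 0 < m v}, m u.1 * K u.1 u.1 :=
    red m hm (fun u => m u * K u u) (fun v hv => by simp [hv])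
  have e2 : ∑ u, ∑ v, w u v * (K u u + K v v - 2 * K u v) =
      ∑ u : {v // 0 < m v}, ∑ v : {v // 0 < m v}, w u.1 v.1 *
        (K u.1 u.1 + K v.1 v.1 - 2 * K u.1 v.1) :=
    red2 m hm (fun u v => w u v * (K u u + K v v - 2 * K u v))
      (fun u v hu => by simp [h0 u hu v]) (fun u v hv => by simp [hsym u v, h0 v hv u])
  have e3 : ∑ u, ∑ v, m u * m v * (K u v) ^ 2 =
      ∑ u : {v // 0 < m v}, ∑ v : {v // 0 < m v}, m u.1 * m v.1 * (K u.1 v.1) ^ 2 :=
    red2 m hm (fun u v => m u * m v * (K u v) ^ 2) (fun u v hu => by simp [hu])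
      (fun u v hv => by simp [hv])
  have e4 : ∑ u, m u = ∑ u : {v // 0 < m v}, m u.1 := red m hm (fun u => m u) (fun v hv => hv)
  have e5 : ∑ u, ∑ v, w u v = ∑ u : {v // 0 < m v}, ∑ v : {v // 0 < m v}, w u.1 v.1 :=
    red2 m hm (fun u v => w u v)
      (fun u v hu => by simp [h0 u hu v]) (fun u v hv => by simp [hsym u v, h0 v hv u])
  rw [e1] at hpos hen htM ⊢
  rw [e2] at hen
  rw [e3]
  rw [e4] at hM1
  rw [e5] at hM2
  have hne : Nonempty {v // 0 < m v} := by
    by_contra hemp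
    rw [not_nonempty_iff] at hemp
    rw [Fintype.sum_empty] at hpos
    exact lt_irrefl _ hpos
  have hcard : (1:ℝ) ≤ (Fintype.card {v // 0 < m v} : ℝ) := by
    exact_mod_cast Fintype.card_pos
  have hcard2 : (Fintype.card {v // 0 < m v} : ℝ) ≤ (Fintype.card V : ℝ) := by
    exact_mod_cast Fintype.card_subtype_le _
  have h := gclK {v // 0 < m v} (fun u v => w u.1 v.1) (fun u => m u.1)
    (fun u v => K u.1 v.1) t ht (fun x c => hK (fun i => (x i).1) c) (fun _ _ => hKs _ _)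
    (fun _ _ => hK1 _ _) (fun _ _ => hK0 _ _) l τ q M
    (fun u v => hw _ _) (fun u v => hsym _ _) (fun u => u.2) hl (LSob_red w m hm hsym h0 l hL)
    hτ hτ1 hq hq1 hM1 hM2 hpos hen htM
  refine le_trans ?_ h
  refine mul_le_mul_of_nonneg_left ?_ (by positivity)
  refine mul_le_mul_of_nonneg_left ?_ (sq_nonneg _)
  exact Real.rpow_le_rpow_of_nonpos (by linarith) hcard2 (by linarith)

end Pool.Agent.T6.H63.SA
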