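import Pool.Agent.T6.H63.SA.Hier

/-!
The rounding theorem for the Sherali-Adams hierarchy.
-/

namespace Pool.Agent.T6.H63.SA

open Finset Pool.Agent.H647R3.UG Pool.Agent.H573R3.SL Pool.Agent.TH522.UG

namespace Main

/-- the factor `(n+1)^(-q)` -/
theorem exp_ge (n : ℕ) (hn : 1 ≤ n) (q : ℝ) (hq : 0 < q) (hq1 : q ≤ 1) :
    1 / 2 * (n : ℝ) ^ (-q) ≤ Real.exp (-(q * Real.log (n + 1))) := by
  have hn0 : (0 : ℝ) < n := by exact_mod_cast hn
  have hn1 : (1 : ℝ) ≤ n := by exact_mod_cast hn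
  have h2 : Real.exp (-(q * Real.log (n + 1))) = ((n : ℝ) + 1) ^ (-q) := by
    rw [Real.rpow_def_of_pos (by linarith)]
    congr 1
    ring
  rw [h2]
  have h3 : (2 * (n : ℝ)) ^ (-q) ≤ ((n : ℝ) + 1) ^ (-q) :=
    Real.rpow_le_rpow_of_nonpos (by linarith) (by linarith) (by linarith)
  refine le_trans ?_ h3
  rw [Real.mul_rpow (by norm_num) hn0.le]
  refine mul_le_mul_of_nonneg_right ?_ (Real.rpow_nonneg hn0.le _)
  have h4 : (2 : ℝ) ^ (-1 : ℝ) ≤ 2 ^ (-q) :=
    Real.rpow_le_rpow_of_exponent_le (by norm_num) (by linarith)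
  rw [Real.rpow_neg_one] at h4
  linarith

/-- the number of conditioning steps of a stage -/
theorem steps (n : ℕ) (hn : 1 ≤ n) (q : ℝ) (hq : 0 < q) (hq1 : q ≤ 1) (k : ℕ)
    (hk : 68719476736 * (n : ℝ) ^ (2 * q) ≤ k) :
    2 ≤ k * (1 / 17179869184 * (Real.exp (-(q * Real.log (n + 1))) * (n : ℝ) ^ (-q))) := by
  have hn0 : (0 : ℝ) < n := by exact_mod_cast hn
  have h1 := exp_ge n hn q hq hq1
  have h5 : 0 < (n : ℝ) ^ (-q) := Real.rpow_pos_of_pos hn0 _
  have h6 : (n : ℝ) ^ (2 * q) * ((n : ℝ) ^ (-q) * (n : ℝ) ^ (-q)) = 1 := by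
    rw [← Real.rpow_add hn0, ← Real.rpow_add hn0, show 2 * q + (-q + -q) = 0 by ring,
      Real.rpow_zero]
  calc (2 : ℝ) = 68719476736 * (n : ℝ) ^ (2 * q) *
        (1 / 17179869184 * (1 / 2 * (n : ℝ) ^ (-q) * (n : ℝ) ^ (-q))) := by
        have : 68719476736 * (n : ℝ) ^ (2 * q) *
          (1 / 17179869184 * (1 / 2 * (n : ℝ) ^ (-q) * (n : ℝ) ^ (-q))) =
          2 * ((n : ℝ) ^ (2 * q) * ((n : ℝ) ^ (-q) * (n : ℝ) ^ (-q))) := by ring
        rw [this, h6]; norm_num
    _ ≤ k * (1 / 17179869184 * (Real.exp (-(q * Real.log (n + 1))) * (n : ℝ) ^ (-q))) := by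
        refine mul_le_mul hk ?_ (by positivity) (Nat.cast_nonneg k)
        refine mul_le_mul_of_nonneg_left ?_ (by norm_num)
        exact mul_le_mul_of_nonneg_right h1 h5.le

/-- the reserve -/
theorem reserve (n : ℕ) (hn : 1 ≤ n) (q e0 : ℝ) (hq : 0 < q) (hq1 : q ≤ 1) (he0 : 0 < e0) (r : ℕ)
    (hr : 512 * (n : ℝ) ^ q ≤ r * e0) :
    16 ≤ r * (384 * e0) * (Real.exp (-(q * Real.log (n + 1))) / 4096) := by
  have hn0 : (0 : ℝ) < n := by exact_mod_cast hn
  have h1 := exp_ge n hn q hq hq1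
  have h5 : 0 < (n : ℝ) ^ (-q) := Real.rpow_pos_of_pos hn0 _
  have h6 : (n : ℝ) ^ q * (n : ℝ) ^ (-q) = 1 := by
    rw [← Real.rpow_add hn0, show q + -q = 0 by ring, Real.rpow_zero]
  have h7 : (r * e0) * (1 / 2 * (n : ℝ) ^ (-q)) ≤
      (r * e0) * Real.exp (-(q * Real.log (n + 1))) :=
    mul_le_mul_of_nonneg_left h1 (by positivity)
  have h8 : 512 * (n : ℝ) ^ q * (1 / 2 * (n : ℝ) ^ (-q)) ≤ (r * e0) * (1 / 2 * (n : ℝ) ^ (-q)) :=
    mul_le_mul_of_nonneg_right hr (by positivity)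
  have h9 : 512 * (n : ℝ) ^ q * (1 / 2 * (n : ℝ) ^ (-q)) = 256 := by
    calc 512 * (n : ℝ) ^ q * (1 / 2 * (n : ℝ) ^ (-q)) =
        256 * ((n : ℝ) ^ q * (n : ℝ) ^ (-q)) := by ring
      _ = 256 := by rw [h6, mul_one]
  have h10 : r * (384 * e0) * (Real.exp (-(q * Real.log (n + 1))) / 4096) =
      384 / 4096 * ((r * e0) * Real.exp (-(q * Real.log (n + 1)))) := by ring
  rw [h10]
  linarith

/-- the total loss -/
theorem loss (r γ ε m : ℝ) (T : ℕ) (hr : 0 < r) (hr1 : r ≤ 1) (hγ : 0 < γ)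
    (hε : 0 < ε) (hm : 0 < m) (hεγ : 4294967296 * (ε * Real.log (2 / r)) ≤ r * γ ^ 2)
    (hT1 : 8 / γ ≤ (16 : ℝ) ^ T) (hT2 : (16 : ℝ) ^ T ≤ 128 / γ) :
    2 * G (786432 * (Real.log (2 / (r / 2)) / (r / 2))) T (ε * m) (2 * m) ≤ γ * m := by
  have hl2 := Real.log_two_gt_d9
  have hΛ2 : Real.log 2 ≤ Real.log (2 / r) :=
    Real.log_le_log (by norm_num) (by rw [le_div_iff₀ hr]; linarith)
  have hΛ : 0 < Real.log (2 / r) := by linarith
  have h1 : Real.log (2 / (r / 2)) ≤ 2 * Real.log (2 / r) := by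
    have : 2 / (r / 2) = 2 * (2 / r) := by field_simp
    rw [this, Real.log_mul (by norm_num) (by positivity)]
    linarith
  have h1' : 0 ≤ Real.log (2 / (r / 2)) := Real.log_nonneg (by
    rw [le_div_iff₀ (by positivity)]; linarith)
  -- the square root term
  have h2 : 2 * Real.sqrt (786432 * (Real.log (2 / (r / 2)) / (r / 2)) * (ε * m * (2 * m))) ≤
      γ * m / 8 := by
    have h3 : 786432 * (Real.log (2 / (r / 2)) / (r / 2)) * (ε * m * (2 * m)) ≤
        (γ * m / 16) ^ 2 := by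
      have h4 : Real.log (2 / (r / 2)) / (r / 2) * ε ≤ γ ^ 2 / 1073741824 := by
        rw [div_mul_eq_mul_div, div_le_iff₀ (by positivity)]
        have h5 : Real.log (2 / (r / 2)) * ε ≤ 2 * Real.log (2 / r) * ε :=
          mul_le_mul_of_nonneg_right h1 hε.le
        nlinarith
      calc 786432 * (Real.log (2 / (r / 2)) / (r / 2)) * (ε * m * (2 * m))
          = 1572864 * m ^ 2 * (Real.log (2 / (r / 2)) / (r / 2) * ε) := by ring
        _ ≤ 1572864 * m ^ 2 * (γ ^ 2 / 1073741824) := mul_le_mul_of_nonneg_left h4 (by positivity)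
        _ ≤ (γ * m / 16) ^ 2 := by
            have : 0 ≤ m ^ 2 * γ ^ 2 := by positivity
            nlinarith
    have h6 := Real.sqrt_le_sqrt h3
    rw [Real.sqrt_sq (by positivity)] at h6
    linarith
  -- the middle term
  have h7 : ε ≤ γ ^ 2 / 268435456 := by
    have h8 : ε * (1 / 2) ≤ ε * Real.log (2 / r) :=
      mul_le_mul_of_nonneg_left (by linarith) hε.le
    have h9 : r * γ ^ 2 ≤ γ ^ 2 := mul_le_of_le_one_left (sq_nonneg _) hr1
    have : 0 ≤ ε := hε.le
    linarith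
  have h10 : (4 : ℝ) ^ T ≤ 128 / γ :=
    (pow_le_pow_left₀ (by norm_num) (by norm_num) T).trans hT2
  have h11 : 24 * ((4 : ℝ) ^ T - 1) * (ε * m) ≤ γ * m / 8 := by
    have h12 : (4 : ℝ) ^ T * ε ≤ γ / 192 := by
      calc (4 : ℝ) ^ T * ε ≤ 128 / γ * (γ ^ 2 / 268435456) :=
            mul_le_mul h10 h7 hε.le (by positivity)
        _ ≤ γ / 192 := by
            have : 128 / γ * (γ ^ 2 / 268435456) = γ * (128 / 268435456) := by field_simp
            rw [this]
            nlinarith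
    have h13 : 24 * ((4 : ℝ) ^ T - 1) * (ε * m) ≤ 24 * m * ((4 : ℝ) ^ T * ε) := by
      have : 0 ≤ ε * m := by positivity
      nlinarith
    have h14 : 24 * m * ((4 : ℝ) ^ T * ε) ≤ 24 * m * (γ / 192) :=
      mul_le_mul_of_nonneg_left h12 (by positivity)
    linarith
  -- the last term
  have h15 : 1 / 2 * (1 / 16 : ℝ) ^ T * (2 * m) ≤ γ * m / 8 := by
    have h16 : (1 / 16 : ℝ) ^ T ≤ γ / 8 := by
      rw [one_div, inv_pow, inv_le_comm₀ (by positivity) (by positivity)]
      rw [inv_div]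
      exact hT1
    have := mul_le_mul_of_nonneg_right h16 hm.le
    linarith
  unfold G
  have : 0 < γ * m := by positivity
  linarith

end Main

/-- the rounding theorem for the Sherali-Adams hierarchy -/
theorem core {V A E : Type} [Fintype V] [DecidableEq V] [Fintype A] [DecidableEq A] [Fintype E]
    (s t : E → V) (π : E → Equiv.Perm A) (r γ ε : ℝ) (hr : 0 < r) (hr1 : r ≤ 1) (hγ : 0 < γ)
    (hγ1 : γ < 1) (hεγ : 4294967296 * (ε * Real.log (2 / r)) ≤ r * γ ^ 2) (K : ℕ)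
    (hK : 8796093022208 * (Real.log (2 / r) * (Fintype.card V : ℝ) ^ r) ≤ r * γ ^ 2 * K)
    (L : ((V → A) → ℝ) →ₗ[ℝ] ℝ) (hL : SAl K L)
    (hval : (1 - ε) * (Fintype.card E : ℝ) ≤ ∑ e, L (sat (s e) (t e) (π e))) :
    ∃ x : V → A, (1 - γ) * (Fintype.card E : ℝ)
      ≤ ((univ.filter fun e => π e (x (s e)) = x (t e)).card : ℝ) := by
  have hl2 := Real.log_two_gt_d9
  have hΛ2 : Real.log 2 ≤ Real.log (2 / r) :=
    Real.log_le_log (by norm_num) (by rw [le_div_iff₀ hr]; linarith)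
  have hΛ : 0 < Real.log (2 / r) := by linarith
  rcases isEmpty_or_nonempty E with hE | ⟨⟨e00⟩⟩
  · by_cases hne : Nonempty (V → A)
    · obtain ⟨x0⟩ := hne
      exact ⟨x0, by simp⟩
    · exfalso
      rw [not_nonempty_iff] at hne
      have h1 : (fun _ : V → A => (1 : ℝ)) = 0 := by funext x; exact (hne.false x).elim
      have h2 := hL.one
      rw [h1, map_zero] at h2
      exact zero_ne_one h2
  have hn : 1 ≤ Fintype.card V := Fintype.card_pos_iff.2 ⟨s e00⟩
  have hn0 : (0 : ℝ) < (Fintype.card V : ℝ) := by exact_mod_cast hn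
  have hn1 : (1 : ℝ) ≤ (Fintype.card V : ℝ) := by exact_mod_cast hn
  have hnr : 1 ≤ (Fintype.card V : ℝ) ^ r := Real.one_le_rpow hn1 hr.le
  set m : ℝ := (Fintype.card E : ℝ) with hm
  have hm0 : 0 < m := by
    rw [hm]
    exact_mod_cast Fintype.card_pos_iff.2 ⟨e00⟩
  -- increase the error
  obtain ⟨ε', hε', hε'2⟩ : ∃ ε' : ℝ, 4294967296 * (ε' * Real.log (2 / r)) = r * γ ^ 2 ∧
      ε ≤ ε' := by
    refine ⟨r * γ ^ 2 / (4294967296 * Real.log (2 / r)), by field_simp, ?_⟩
    rw [le_div_iff₀ (by positivity)]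
    linarith
  have hε'0 : 0 < ε' := by
    by_contra hcon
    push Not at hcon
    have h1 : 4294967296 * (ε' * Real.log (2 / r)) ≤ 0 :=
      mul_nonpos_of_nonneg_of_nonpos (by norm_num)
        (mul_nonpos_of_nonpos_of_nonneg hcon hΛ.le)
    have h2 : 0 < r * γ ^ 2 := by positivity
    linarith
  have hrγ : 0 < r * γ ^ 2 := by positivity
  -- parameters
  obtain ⟨T, hT1, hT2, hT3⟩ := Pool.Agent.TH522.UG.Main.exists_stages γ hγ hγ1
  set k : ℕ := ⌈68719476736 * (Fintype.card V : ℝ) ^ (2 * (r / 2))⌉₊ with hk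
  have hk1 : 68719476736 * (Fintype.card V : ℝ) ^ (2 * (r / 2)) ≤ k := Nat.le_ceil _
  have hk2 : (k : ℝ) < 68719476736 * (Fintype.card V : ℝ) ^ (2 * (r / 2)) + 1 :=
    Nat.ceil_lt_add_one (by positivity)
  have e1 : 2 * (r / 2) = r := by ring
  rw [e1] at hk2
  set e0 : ℝ := ε' / 2 with he0
  have he00 : 0 < e0 := by positivity
  set R : ℕ := ⌈512 * (Fintype.card V : ℝ) ^ (r / 2) / e0⌉₊ with hR
  have hR1 : 512 * (Fintype.card V : ℝ) ^ (r / 2) / e0 ≤ R := Nat.le_ceil _
  have hR2 : (R : ℝ) < 512 * (Fintype.card V : ℝ) ^ (r / 2) / e0 + 1 :=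
    Nat.ceil_lt_add_one (by positivity)
  have hR3 : 512 * (Fintype.card V : ℝ) ^ (r / 2) ≤ R * e0 := by
    rwa [div_le_iff₀ he00] at hR1
  have hR0 : 1 ≤ R := by
    have : 0 < 512 * (Fintype.card V : ℝ) ^ (r / 2) / e0 := by positivity
    exact Nat.ceil_pos.2 this
  -- the level
  have hTk : T * k + (R + 2) ≤ K := by
    have h1 : ((T * k + (R + 2) : ℕ) : ℝ) ≤ K := by
      push_cast
      refine le_of_mul_le_mul_left ?_ hrγ
      refine le_trans ?_ hK
      set X : ℝ := Real.log (2 / r) * (Fintype.card V : ℝ) ^ r with hX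
      have hX1 : (1 / 2 : ℝ) ≤ X := by
        rw [hX]
        nlinarith
      have hnr2 : (Fintype.card V : ℝ) ^ (r / 2) ≤ (Fintype.card V : ℝ) ^ r :=
        Real.rpow_le_rpow_of_exponent_le hn1 (by linarith)
      -- first part
      have hlogγ : Real.log (2 / γ) ≤ 2 / γ := by
        have := Real.log_le_sub_one_of_pos (by positivity : 0 < 2 / γ)
        linarith
      have a1 : r * γ ^ 2 * (T * k) ≤ 1099511627776 * X := by
        have b1 : (T : ℝ) * k ≤ 3 * (2 / γ) * (68719476737 * (Fintype.card V : ℝ) ^ r) := by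
          refine mul_le_mul (hT3.trans (by linarith)) (by linarith) (Nat.cast_nonneg k)
            (by positivity)
        have b2 : r * γ ^ 2 * (3 * (2 / γ) * (68719476737 * (Fintype.card V : ℝ) ^ r)) =
            412316860422 * (r * γ) * (Fintype.card V : ℝ) ^ r := by
          field_simp
          ring
        have b3 : r * γ ≤ 2 * Real.log (2 / r) := by nlinarith
        calc r * γ ^ 2 * (T * k) ≤
            r * γ ^ 2 * (3 * (2 / γ) * (68719476737 * (Fintype.card V : ℝ) ^ r)) :=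
              mul_le_mul_of_nonneg_left b1 hrγ.le
          _ = 412316860422 * (r * γ) * (Fintype.card V : ℝ) ^ r := b2
          _ ≤ 412316860422 * (2 * Real.log (2 / r)) * (Fintype.card V : ℝ) ^ r := by
              refine mul_le_mul_of_nonneg_right ?_ (by positivity)
              exact mul_le_mul_of_nonneg_left b3 (by norm_num)
          _ = 824633720844 * X := by rw [hX]; ring
          _ ≤ 1099511627776 * X := mul_le_mul_of_nonneg_right (by norm_num) (by linarith)
      -- second part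
      have a2 : r * γ ^ 2 * R ≤ 4398046511104 * X + r * γ ^ 2 := by
        have b1 : r * γ ^ 2 * (512 * (Fintype.card V : ℝ) ^ (r / 2) / e0) =
            4398046511104 * (Real.log (2 / r) * (Fintype.card V : ℝ) ^ (r / 2)) := by
          rw [← hε', he0]
          field_simp
          ring
        calc r * γ ^ 2 * R ≤ r * γ ^ 2 * (512 * (Fintype.card V : ℝ) ^ (r / 2) / e0 + 1) :=
              mul_le_mul_of_nonneg_left hR2.le hrγ.le
          _ = 4398046511104 * (Real.log (2 / r) * (Fintype.card V : ℝ) ^ (r / 2)) +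
                r * γ ^ 2 := by rw [mul_add, b1, mul_one]
          _ ≤ _ := by
              have := mul_le_mul_of_nonneg_left hnr2 hΛ.le
              linarith
      have a3 : r * γ ^ 2 ≤ 1 := by
        have : γ ^ 2 ≤ 1 := pow_le_one₀ hγ.le hγ1.le
        nlinarith
      nlinarith
    exact_mod_cast h1
  have hL2 : SAl (T * k + (R + 2)) L := Sx.mono hTk hL
  have hQ := hier_sa V A R
  have hfc := Sx.fct (by omega : 2 ≤ T * k + (R + 2)) (by omega : R + 1 ≤ T * k + (R + 2)) hL2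
  obtain ⟨x0⟩ : Nonempty (V → A) := by
    rcases isEmpty_or_nonempty V with h | ⟨⟨v⟩⟩
    · exact ⟨fun v => (h.false v).elim⟩
    · have h1 : Nonempty A := by
        by_contra hcon
        rw [not_nonempty_iff] at hcon
        have := (hfc.law v v).one
        rw [Finset.univ_eq_empty, Finset.sum_empty] at this
        exact zero_ne_one this
      exact ⟨fun _ => h1.some⟩
  have hN : 0 < Real.log ((Fintype.card V : ℝ) + 1) := Real.log_pos (by linarith)
  have hN1 : Real.log (Fintype.card V : ℝ) ≤ Real.log ((Fintype.card V : ℝ) + 1) :=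
    Real.log_le_log hn0 (by linarith)
  have hsteps := Main.steps (Fintype.card V) hn (r / 2) (by positivity) (by linarith) k hk1
  have hres := Main.reserve (Fintype.card V) hn (r / 2) e0 (by positivity) (by linarith) he00 R hR3
  have hErr : ErrL s t π (fun _ => (1 : ℝ)) L ≤ ε' * m := by
    unfold ErrL
    simp only [one_mul]
    rw [sum_sub_distrib]
    have h1 : ∑ _e : E, (1 : ℝ) = m := by rw [hm]; simp
    rw [h1]
    have h2 : (1 - ε') * m ≤ (1 - ε) * m := mul_le_mul_of_nonneg_right (by linarith) hm0.le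
    linarith
  have hvol : volL s t (fun _ => (1 : ℝ)) = 2 * m := by
    unfold volL
    simp only [one_pow, mul_one]
    exact (T_WT V E s t).2.2.2.2.1
  have h := node hR0 hQ s t π x0 (r / 2) _ (by positivity) (by linarith) hN hN1 k hsteps e0 he00
    hres T (fun _ => 1) L (ε' * m) (fun _ => zero_le_one) (by positivity)
    (by rw [hvol, he0]; linarith) hL2 hErr
  rw [hvol] at h
  obtain ⟨c, hc⟩ := ach_round _ (h.congr (P' := fun _ => 1) fun v => by norm_num)
  have hloss := Main.loss r γ ε' m T hr hr1 hγ hε'0 hm0 (le_of_eq hε') hT1 hT2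
  exact ⟨c, by linarith⟩

end Pool.Agent.T6.H63.SA
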